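import Pool.Agent.H54.PP.Bl
import Pool.Agent.H54.PP.Ia

/-!
The main theorem of block N2 of the project MP_78d38b_PP (assembled by helper54).
-/

set_option autoImplicit false
open scoped Classical

open NumberField IsDedekindDomain H76PP
open scoped Matrix

namespace H54PP

variable {K : Type} [Field K] [NumberField K]

theorem dat_mono {X C₂ C₂' : ℝ} (h : C₂ ≤ C₂') {T : Finset (HeightOneSpectrum (𝓞 K))}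
    {A B : 𝓞 K} {l : Fin 3 → ℝ} {M N : Matrix (Fin 3) (Fin 3) (𝓞 K)}
    (hD : Dat X C₂ T A B l M N) : Dat X C₂' T A B l M N :=
  { hD with prod := hD.prod.trans h }

variable (K)

theorem dat_count_rho {C₂ : ℝ} (hC : 1 ≤ C₂) : ∃ (C : ℝ) (N₀ : ℕ), 0 < C ∧
    ∀ T : Finset (HeightOneSpectrum (𝓞 K)),
      (∀ v ∈ T, N₀ ≤ Nv v ∧ (6 : 𝓞 K) ∉ v.asIdeal) → ∃ X₀ : ℝ, ∀ X : ℝ, X₀ ≤ X →
        ({p : 𝓞 K × 𝓞 K | p ∈ Bx K X ∧ ∃ (l : Fin 3 → ℝ) (M N : Matrix (Fin 3) (Fin 3) (𝓞 K)),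
          Dat X C₂ T p.1 p.2 l M N}.ncard : ℝ) ≤
          C * (∏ v ∈ T, rho v) * X ^ (5 * Module.finrank ℚ K) := by
  obtain ⟨Ca, Na, hCa, ha⟩ := case_two K hC
  obtain ⟨Cb, Nb, hCb, hb⟩ := case_one K hC (c5_pos hC)
  refine ⟨Ca + Cb, max Na Nb, by linarith, fun T hT => ?_⟩
  obtain ⟨Xa, hXa⟩ := ha T (fun v hv => ⟨(le_max_left _ _).trans (hT v hv).1, (hT v hv).2⟩)
  obtain ⟨Xb, hXb⟩ := hb T (fun v hv => ⟨(le_max_right _ _).trans (hT v hv).1, (hT v hv).2⟩)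
  refine ⟨max Xa Xb, fun X hX => ?_⟩
  have h1 := hXa X ((le_max_left _ _).trans hX)
  have h2 := hXb X ((le_max_right _ _).trans hX)
  have hsub : {p : 𝓞 K × 𝓞 K | p ∈ Bx K X ∧ ∃ (l : Fin 3 → ℝ)
      (M N : Matrix (Fin 3) (Fin 3) (𝓞 K)), Dat X C₂ T p.1 p.2 l M N} ⊆
      Bd K X C₂ T (fun x => x < c5 C₂) ∪ Bd K X C₂ T (fun x => c5 C₂ ≤ x) := by
    rintro p ⟨hp, l, M, N, hD⟩
    rcases lt_or_ge (l 0) (c5 C₂) with h | h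
    · exact Or.inl ⟨hp, l, M, N, hD, h⟩
    · exact Or.inr ⟨hp, l, M, N, hD, h⟩
  have h3 := Set.ncard_le_ncard hsub ((Bd_finite K X C₂ T _).union (Bd_finite K X C₂ T _))
  have h4 := h3.trans (Set.ncard_union_le _ _)
  have h5 : ({p : 𝓞 K × 𝓞 K | p ∈ Bx K X ∧ ∃ (l : Fin 3 → ℝ)
      (M N : Matrix (Fin 3) (Fin 3) (𝓞 K)), Dat X C₂ T p.1 p.2 l M N}.ncard : ℝ) ≤
      ((Bd K X C₂ T (fun x => x < c5 C₂)).ncard : ℝ) +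
        ((Bd K X C₂ T (fun x => c5 C₂ ≤ x)).ncard : ℝ) := by
    exact_mod_cast h4
  calc _ ≤ _ := h5
    _ ≤ _ := add_le_add h1 h2
    _ = _ := by ring

theorem dat_count (C₂ : ℝ) : ∃ (C : ℝ) (N₀ : ℕ), 0 < C ∧
    ∀ T : Finset (HeightOneSpectrum (𝓞 K)),
      (∀ v ∈ T, N₀ ≤ Nv v ∧ (6 : 𝓞 K) ∉ v.asIdeal) → ∃ X₀ : ℝ, ∀ X : ℝ, X₀ ≤ X →
        ({p : 𝓞 K × 𝓞 K | p ∈ Bx K X ∧ ∃ (l : Fin 3 → ℝ) (M N : Matrix (Fin 3) (Fin 3) (𝓞 K)),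
          Dat X C₂ T p.1 p.2 l M N}.ncard : ℝ) ≤
          C * (∏ v ∈ T, ((1 + 1 / (Nv v : ℝ)) ^ 2 / 4)) * X ^ (5 * Module.finrank ℚ K) := by
  obtain ⟨C, N₀, hC, h⟩ := dat_count_rho K (C₂ := max C₂ 1) (le_max_right _ _)
  refine ⟨C, N₀, hC, fun T hT => ?_⟩
  obtain ⟨X₀, hX₀⟩ := h T hT
  refine ⟨X₀, fun X hX => ?_⟩
  have h1 := hX₀ X hX
  refine le_trans ?_ h1
  have hfin : {p : 𝓞 K × 𝓞 K | p ∈ Bx K X ∧ ∃ (l : Fin 3 → ℝ)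
      (M N : Matrix (Fin 3) (Fin 3) (𝓞 K)), Dat X (max C₂ 1) T p.1 p.2 l M N}.Finite := by
    refine (Bd_finite K X (max C₂ 1) T (fun _ => True)).subset ?_
    rintro p ⟨hp, l, M, N, hD⟩
    exact ⟨hp, l, M, N, hD, trivial⟩
  have h2 := Set.ncard_le_ncard (s := {p : 𝓞 K × 𝓞 K | p ∈ Bx K X ∧ ∃ (l : Fin 3 → ℝ)
      (M N : Matrix (Fin 3) (Fin 3) (𝓞 K)), Dat X C₂ T p.1 p.2 l M N}) (by
    rintro p ⟨hp, l, M, N, hD⟩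
    exact ⟨hp, l, M, N, dat_mono (le_max_left _ _) hD⟩) hfin
  exact_mod_cast h2

end H54PP
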