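import Pool.Agent.H54.PP.D0

/-!
ROW Ab (project MP_78d38b_PP, about 100 lines): the residue condition is invariant under change of
basis, the primes `v` and the reduction of matrices.

PROOF.
(1) `Rs_conj`: let `a, b, t, e` be given by `Rs M N`, `Pi = P⁻¹` (`P.det = 1`; or `Pi = P.adjugate`,
`Matrix.mul_adjugate`), `e' = Pi *ᵥ e ≠ 0` (`P *ᵥ e' = e`). `det (x PᵀMP - PᵀNP) = det (Pᵀ (x M - N) P) = det (x M - N)`,
`det (PᵀMP) = det M`, `PᵀNP e' = Pᵀ N e = t Pᵀ M e = t PᵀMP e'`, `e' ⬝ PᵀMP e' = e' ⬝ Pᵀ (M e) = (P e') ⬝ M e = e ⬝ M e`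
(`Matrix.dotProduct_mulVec`, `Matrix.vecMul_transpose`, `Matrix.mulVec_mulVec`).
(2) `rd_conj`: `Matrix.map_mul`, `Matrix.transpose_map`; `rd_det`: `RingHom.map_det` (`(Ideal.Quotient.mk v.asIdeal).mapMatrix`),
with `Ideal.Quotient.eq_zero_iff_mem`. `rd_sy`: entrywise.
(3) `Rs_rd_conj`: from (1) and (2); `(rd v P).det = 1` from `P.det = 1`.
(4) `finite_residue`: `Ideal.finiteQuotientOfFreeOfNeBot`; `card_residue`: `Ideal.absNorm_apply`, `Submodule.cardQuot_apply`.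
-/

set_option autoImplicit false
open scoped Classical

open NumberField IsDedekindDomain H76PP
open scoped Matrix

namespace H54PP

theorem Rs_conj {k : Type*} [Field k] {M N P : Matrix (Fin 3) (Fin 3) k} (hP : P.det = 1)
    (h : Rs M N) : Rs (Pᵀ * M * P) (Pᵀ * N * P) := by
  obtain ⟨a, b, t, e, he, hch, hev, hns, hne, hsq⟩ := h
  have hPT : Pᵀ.det = 1 := by rw [Matrix.det_transpose, hP]
  have hinv : P * P.adjugate = 1 := by rw [Matrix.mul_adjugate, hP, one_smul]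
  obtain ⟨f, hf⟩ : ∃ f, f = P.adjugate.mulVec e := ⟨_, rfl⟩
  have hPf : P.mulVec f = e := by rw [hf, Matrix.mulVec_mulVec, hinv, Matrix.one_mulVec]
  have hf0 : f ≠ 0 := by
    intro h0
    rw [h0, Matrix.mulVec_zero] at hPf
    exact he hPf.symm
  have hmv : ∀ L : Matrix (Fin 3) (Fin 3) k, (Pᵀ * L * P).mulVec f = Pᵀ.mulVec (L.mulVec e) := by
    intro L
    rw [← Matrix.mulVec_mulVec, hPf, ← Matrix.mulVec_mulVec]
  have hdot : ∀ L : Matrix (Fin 3) (Fin 3) k, f ⬝ᵥ (Pᵀ * L * P).mulVec f = e ⬝ᵥ L.mulVec e := by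
    intro L
    rw [hmv, Matrix.dotProduct_mulVec, Matrix.vecMul_transpose, hPf]
  refine ⟨a, b, t, f, hf0, fun x => ?_, ?_, hns, ?_, ?_⟩
  · have h1 : x • (Pᵀ * M * P) - Pᵀ * N * P = Pᵀ * (x • M - N) * P := by
      rw [Matrix.mul_sub, Matrix.sub_mul, Matrix.mul_smul, Matrix.smul_mul]
    rw [h1, Matrix.det_mul, Matrix.det_mul, hP, hPT, one_mul, mul_one, hch, Matrix.det_mul, Matrix.det_mul,
      hP, hPT, one_mul, mul_one]
  · rw [hmv, hmv, hev, Matrix.mulVec_smul]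
  · rw [hdot]
    exact hne
  · rw [hdot]
    exact hsq

variable {K : Type} [Field K] [NumberField K]

theorem rd_conj (v : HeightOneSpectrum (𝓞 K)) (M P : Matrix (Fin 3) (Fin 3) (𝓞 K)) :
    rd v (Pᵀ * M * P) = (rd v P)ᵀ * rd v M * rd v P := by
  unfold rd
  rw [Matrix.map_mul, Matrix.map_mul, Matrix.transpose_map]

theorem rd_det (v : HeightOneSpectrum (𝓞 K)) (M : Matrix (Fin 3) (Fin 3) (𝓞 K)) :
    (rd v M).det = Ideal.Quotient.mk v.asIdeal M.det := by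
  rw [RingHom.map_det]
  rfl

theorem rd_det_ne {v : HeightOneSpectrum (𝓞 K)} {M : Matrix (Fin 3) (Fin 3) (𝓞 K)}
    (h : M.det ∉ v.asIdeal) : (rd v M).det ≠ 0 := by
  rw [rd_det]
  intro h0
  exact h (Ideal.Quotient.eq_zero_iff_mem.1 h0)

theorem rd_sy (v : HeightOneSpectrum (𝓞 K)) (y : Fin 6 → 𝓞 K) :
    rd v (sy y) = sy (fun i => Ideal.Quotient.mk v.asIdeal (y i)) := by
  ext i j
  fin_cases i <;> fin_cases j <;> rfl

theorem Rs_rd_conj {v : HeightOneSpectrum (𝓞 K)} {M N P : Matrix (Fin 3) (Fin 3) (𝓞 K)}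
    (hP : P.det = 1) (h : Rs (rd v M) (rd v N)) :
    Rs (rd v (Pᵀ * M * P)) (rd v (Pᵀ * N * P)) := by
  have h1 : (rd v P).det = 1 := by
    rw [rd_det, hP]
    exact map_one _
  rw [rd_conj, rd_conj]
  exact Rs_conj h1 h

theorem finite_residue (v : HeightOneSpectrum (𝓞 K)) : Finite (𝓞 K ⧸ v.asIdeal) :=
  Ideal.finiteQuotientOfFreeOfNeBot v.asIdeal v.ne_bot

theorem card_residue (v : HeightOneSpectrum (𝓞 K)) : Nat.card (𝓞 K ⧸ v.asIdeal) = Nv v := by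
  unfold Nv
  rw [Ideal.absNorm_apply, Submodule.cardQuot_apply]

theorem two_le_Nv (v : HeightOneSpectrum (𝓞 K)) : 2 ≤ Nv v := by
  haveI := finite_residue v
  haveI : Nontrivial (𝓞 K ⧸ v.asIdeal) := Ideal.Quotient.nontrivial_iff.2 v.isPrime.ne_top
  rw [← card_residue]
  exact Finite.one_lt_card

theorem six_ne {v : HeightOneSpectrum (𝓞 K)} (h : (6 : 𝓞 K) ∉ v.asIdeal) :
    (6 : 𝓞 K ⧸ v.asIdeal) ≠ 0 := by
  intro h0
  apply h
  rw [← Ideal.Quotient.eq_zero_iff_mem, map_ofNat]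
  exact h0

end H54PP
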