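import Pool.Agent.H54.PP.D0

/-!
ROW Aa (project MP_78d38b_PP, about 100 lines): the determinant of `x M - N` for symmetric
`3 × 3` matrices. Use the definitions of `Pool/Agent/H54/PP/D0.lean`.

PROOF.
(1) `det_exp`: `unfold sy`/`simp` with `Matrix.det_fin_three` on both sides, then `ring` (write the entries of
`x • sy m - sy y` with `Matrix.sub_apply`, `Matrix.smul_apply`, `smul_eq_mul`, `Fin.sum_univ_six`).
(2) `sum_cf_self`: `∑ i, cf m i * m i = 3 * det (sy m)`: `Fin.sum_univ_six`, `Matrix.det_fin_three`, `ring`.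
(3) `exists_cf`: if all `cf m i = 0` then `3 * det = 0` by (2).
(4) `char_cf`: with `m = en M`, `y = en N` (`sy_en`) `det (x M - N) = det M x^3 - S₁ x^2 + S₂ x - det N`, so for `x = 0`:
`- det N = det M * B`; `x = 1` and `x = -1` added: `- 2 S₁ - 2 det N = 2 det M * B`, so `S₁ = 0`; `x = 1` minus `x = -1`:
`2 det M + 2 S₂ = 2 det M (1 + A)`, so `S₂ = det M * A`.
(5) `char_unique`: (4) for both, `S₂ = det M * A = det M * A'`, cancel `det M ≠ 0`.
-/

set_option autoImplicit false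
open scoped Classical

open NumberField IsDedekindDomain H76PP
open scoped Matrix

namespace H54PP

theorem Aa_det {R : Type*} [CommRing R] (m : Fin 6 → R) : (sy m).det =
    m 0 * (m 3 * m 5 - m 4 ^ 2) - m 1 * (m 1 * m 5 - m 2 * m 4) +
      m 2 * (m 1 * m 4 - m 2 * m 3) := by
  rw [Matrix.det_fin_three]
  unfold sy
  simp only [Matrix.of_apply, Matrix.cons_val', Matrix.cons_val_zero, Matrix.cons_val_one,
    Matrix.cons_val]
  ring

theorem Aa_sub {R : Type*} [CommRing R] (x : R) (m y : Fin 6 → R) :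
    x • sy m - sy y = sy (fun i => x * m i - y i) := by
  ext i j
  fin_cases i <;> fin_cases j <;> rfl

theorem Aa_cf {R : Type*} [CommRing R] (m y : Fin 6 → R) :
    ∑ i, cf m i * y i = (m 3 * m 5 - m 4 ^ 2) * y 0 + 2 * (m 2 * m 4 - m 1 * m 5) * y 1 +
      2 * (m 1 * m 4 - m 2 * m 3) * y 2 + (m 0 * m 5 - m 2 ^ 2) * y 3 +
      2 * (m 1 * m 2 - m 0 * m 4) * y 4 + (m 0 * m 3 - m 1 ^ 2) * y 5 := by
  rw [Fin.sum_univ_six]
  rfl

theorem det_exp {R : Type*} [CommRing R] (x : R) (m y : Fin 6 → R) :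
    (x • sy m - sy y).det = (sy m).det * x ^ 3 - (∑ i, cf m i * y i) * x ^ 2 +
      (∑ i, cf y i * m i) * x - (sy y).det := by
  rw [Aa_sub, Aa_det, Aa_det, Aa_det, Aa_cf, Aa_cf]
  ring

theorem sum_cf_self {R : Type*} [CommRing R] (m : Fin 6 → R) :
    ∑ i, cf m i * m i = 3 * (sy m).det := by
  rw [Aa_det, Aa_cf]
  ring

theorem exists_cf {R : Type*} [CommRing R] [IsDomain R] [CharZero R] {m : Fin 6 → R}
    (h : (sy m).det ≠ 0) : ∃ i, cf m i ≠ 0 := by
  by_contra hcon
  push Not at hcon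
  have h1 := sum_cf_self m
  rw [Finset.sum_eq_zero (fun i _ => by rw [hcon i, zero_mul])] at h1
  rcases mul_eq_zero.1 h1.symm with h2 | h2
  · have h3 : ((3 : ℕ) : R) ≠ 0 := Nat.cast_ne_zero.2 (by norm_num)
    exact h3 (by exact_mod_cast h2)
  · exact h h2

theorem char_cf {R : Type*} [CommRing R] [IsDomain R] [CharZero R]
    {M N : Matrix (Fin 3) (Fin 3) R} (hM : M.IsSymm) (hN : N.IsSymm) {A B : R}
    (h : ∀ x : R, (x • M - N).det = M.det * (x ^ 3 + A * x + B)) :
    ∑ i, cf (en M) i * en N i = 0 ∧ ∑ i, cf (en N) i * en M i = M.det * A ∧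
      - N.det = M.det * B := by
  have h1 : ∀ x : R, (x • M - N).det = M.det * x ^ 3 - (∑ i, cf (en M) i * en N i) * x ^ 2 +
      (∑ i, cf (en N) i * en M i) * x - N.det := by
    intro x
    have h2 := det_exp x (en M) (en N)
    rw [sy_en hM, sy_en hN] at h2
    exact h2
  generalize (∑ i, cf (en M) i * en N i) = S₁ at h1 ⊢
  generalize (∑ i, cf (en N) i * en M i) = S₂ at h1 ⊢
  have e0 := (h1 0).symm.trans (h 0)
  have e1 := (h1 1).symm.trans (h 1)
  have e2 := (h1 (-1)).symm.trans (h (-1))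
  have h0 : - N.det = M.det * B := by linear_combination e0
  have hS1 : S₁ = 0 := by
    have h3 : 2 * S₁ = 0 := by linear_combination 2 * e0 - e1 - e2
    rcases mul_eq_zero.1 h3 with h4 | h4
    · exact absurd h4 two_ne_zero
    · exact h4
  refine ⟨hS1, ?_, h0⟩
  have h3 : 2 * (S₂ - M.det * A) = 0 := by linear_combination e1 - e2
  rcases mul_eq_zero.1 h3 with h4 | h4
  · exact absurd h4 two_ne_zero
  · exact sub_eq_zero.1 h4

theorem char_unique {R : Type*} [CommRing R] [IsDomain R] [CharZero R]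
    {M N : Matrix (Fin 3) (Fin 3) R} (hM : M.IsSymm) (hN : N.IsSymm) (hd : M.det ≠ 0)
    {A B A' B' : R} (h : ∀ x : R, (x • M - N).det = M.det * (x ^ 3 + A * x + B))
    (h' : ∀ x : R, (x • M - N).det = M.det * (x ^ 3 + A' * x + B')) : A = A' ∧ B = B' := by
  obtain ⟨-, h1, h2⟩ := char_cf hM hN h
  obtain ⟨-, h1', h2'⟩ := char_cf hM hN h'
  exact ⟨mul_left_cancel₀ hd (h1.symm.trans h1'), mul_left_cancel₀ hd (h2.symm.trans h2')⟩

end H54PP
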