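import Pool.Agent.H54.PP.Fe
import Pool.Agent.H76.PP.Df0

/-!
ROW Ff (project MP_78d38b_PP, about 110 lines): (6.2) of the note, the number of symmetric matrices
`N` with the residue condition. Use the STATEMENT `fixed_e` (Fe).

PROOF. `q = card k ≥ 2`. `Rs M N` iff there is `e ≠ 0` with `RsE M N e` (reorder the quantifiers). Double counting of the finite
set `Z = {(N, e) | N symmetric, e ≠ 0, RsE M N e}`.
(1) for each `N` with `N.IsSymm ∧ Rs M N` at least `q - 1` vectors `e`: if `e` is one then `c • e`, `c ≠ 0`, are `q - 1` different ones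
(`Matrix.mulVec_smul`, `(c e) ⬝ M (c e) = c^2 (e ⬝ M e)`, a product of a square with a square; injective since `e` has a nonzero
coordinate; `Fintype.card kˣ = q - 1`). So `(q - 1) * #{N} ≤ #Z`.
(2) for each `e` at most `X` matrices, `4 X ≤ (q - 1) (q + 1)^2` (`fixed_e`), and there are `q^3 - 1` vectors `e ≠ 0`. So
`4 #Z ≤ (q^3 - 1) (q - 1) (q + 1)^2`.
Hence `4 (q - 1) #{N} ≤ (q^3 - 1) (q - 1) (q + 1)^2`, divide by `q - 1 > 0`.
(Write `#Z` as `∑ N, #{e}` and as `∑ e, #{N}`: `Finset.sum_card_bipartiteAbove_eq_sum_card_bipartiteBelow`, or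
`Finset.card_eq_sum_card_fiberwise` twice.)
-/

set_option autoImplicit false
open scoped Classical

open H76PP
open scoped Matrix

namespace H54PP

theorem Ff_scale {k : Type} [Field k] {M N : Matrix (Fin 3) (Fin 3) k} {e : Fin 3 → k} {c : k}
    (hc : c ≠ 0) (h : RsE M N e) : RsE M N (c • e) := by
  obtain ⟨a, b, t, h1, h2, h3, h4, h5⟩ := h
  have h6 : (c • e) ⬝ᵥ M.mulVec (c • e) = c * (c * (e ⬝ᵥ M.mulVec e)) := by
    rw [Matrix.mulVec_smul, smul_dotProduct, dotProduct_smul, smul_eq_mul, smul_eq_mul]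
  refine ⟨a, b, t, h1, ?_, h3, ?_, ?_⟩
  · rw [Matrix.mulVec_smul, Matrix.mulVec_smul, h2, smul_comm]
  · rw [h6]
    exact mul_ne_zero hc (mul_ne_zero hc h4)
  · rw [h6]
    obtain ⟨s, hs⟩ := h5
    refine ⟨c * s, ?_⟩
    linear_combination c ^ 2 * hs

theorem Ff_card {k : Type} [Field k] [Fintype k] :
    (Finset.univ.filter (fun e : Fin 3 → k => e ≠ 0)).card = Fintype.card k ^ 3 - 1 := by
  rw [Finset.filter_ne', Finset.card_erase_of_mem (Finset.mem_univ _), Finset.card_univ,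
    Fintype.card_fun, Fintype.card_fin]

theorem Ff_card1 {k : Type} [Field k] [Fintype k] :
    (Finset.univ.filter (fun e : k => e ≠ 0)).card = Fintype.card k - 1 := by
  rw [Finset.filter_ne', Finset.card_erase_of_mem (Finset.mem_univ _), Finset.card_univ]

theorem Rs_count {k : Type} [Field k] [Fintype k] (h6 : (6 : k) ≠ 0)
    {M : Matrix (Fin 3) (Fin 3) k} (hM : M.IsSymm) (hd : M.det ≠ 0) :
    4 * {N : Matrix (Fin 3) (Fin 3) k | N.IsSymm ∧ Rs M N}.ncard ≤
      Fintype.card k ^ 3 * (Fintype.card k + 1) ^ 2 := by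
  obtain ⟨S, hS⟩ : ∃ S : Finset (Matrix (Fin 3) (Fin 3) k),
      S = Finset.univ.filter (fun N => N.IsSymm ∧ Rs M N) := ⟨_, rfl⟩
  have hSc : {N : Matrix (Fin 3) (Fin 3) k | N.IsSymm ∧ Rs M N}.ncard = S.card := by
    rw [← Set.ncard_coe_finset]
    congr 1
    ext N
    simp [hS]
  rw [hSc]
  obtain ⟨q, hq⟩ : ∃ q : ℕ, q = Fintype.card k := ⟨_, rfl⟩
  have hq2 : 2 ≤ q := by
    rw [hq]
    exact Fintype.one_lt_card
  have key := Finset.card_mul_le_card_mul (s := S)
    (t := Finset.univ.filter (fun e : Fin 3 → k => e ≠ 0))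
    (fun N e => N.IsSymm ∧ RsE M N e) (m := q - 1) (n := ((q - 1) * (q + 1) ^ 2) / 4) ?_ ?_
  · rw [Ff_card, ← hq] at key
    rw [← hq]
    have h1 : 4 * ((q - 1) * (q + 1) ^ 2 / 4) ≤ (q - 1) * (q + 1) ^ 2 := Nat.mul_div_le _ _
    have h2 : (q - 1) * (4 * S.card) ≤ (q - 1) * ((q ^ 3 - 1) * (q + 1) ^ 2) := by
      calc (q - 1) * (4 * S.card) = 4 * (S.card * (q - 1)) := by ring
        _ ≤ 4 * ((q ^ 3 - 1) * ((q - 1) * (q + 1) ^ 2 / 4)) := Nat.mul_le_mul_left _ key
        _ = (q ^ 3 - 1) * (4 * ((q - 1) * (q + 1) ^ 2 / 4)) := by ring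
        _ ≤ (q ^ 3 - 1) * ((q - 1) * (q + 1) ^ 2) := Nat.mul_le_mul_left _ h1
        _ = (q - 1) * ((q ^ 3 - 1) * (q + 1) ^ 2) := by ring
    have h3 := Nat.le_of_mul_le_mul_left h2 (by omega : 0 < q - 1)
    exact h3.trans (Nat.mul_le_mul_right _ (Nat.sub_le _ _))
  · intro N hN
    rw [hS, Finset.mem_filter] at hN
    obtain ⟨-, hN1, a, b, t, e, he, h1, h2, h3, h4, h5⟩ := hN
    have hR : RsE M N e := ⟨a, b, t, h1, h2, h3, h4, h5⟩
    have h6 : ((Finset.univ.filter (fun c : k => c ≠ 0)).image (fun c => c • e)).card = q - 1 := by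
      rw [Finset.card_image_of_injective, Ff_card1, hq]
      intro c d hcd
      obtain ⟨i, hi⟩ : ∃ i, e i ≠ 0 := by
        by_contra hne
        push Not at hne
        exact he (funext hne)
      have h7 := congrFun hcd i
      simp only [Pi.smul_apply, smul_eq_mul] at h7
      exact mul_right_cancel₀ hi h7
    rw [← h6]
    refine Finset.card_le_card ?_
    intro f hf
    rw [Finset.mem_image] at hf
    obtain ⟨c, hc, rfl⟩ := hf
    rw [Finset.mem_filter] at hc
    rw [Finset.mem_bipartiteAbove, Finset.mem_filter]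
    exact ⟨⟨Finset.mem_univ _, smul_ne_zero hc.2 he⟩, hN1, Ff_scale hc.2 hR⟩
  · intro e he
    rw [Nat.le_div_iff_mul_le (by norm_num), mul_comm, hq]
    refine le_trans (Nat.mul_le_mul_left 4 ?_) (fixed_e h6 hM hd e)
    rw [← Set.ncard_coe_finset]
    refine Set.ncard_le_ncard ?_ (Set.toFinite _)
    intro N hN
    rw [Finset.mem_coe, Finset.mem_bipartiteBelow] at hN
    exact hN.2

end H54PP
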