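import Pool.Agent.H54.PP.Aa
import Pool.Agent.H54.PP.Ab
import Pool.Agent.H54.PP.Ff

/-!
ROW Ac (project MP_78d38b_PP, about 180 lines): the number of `N` for a fixed `M`.
Use the STATEMENTS of Aa, Ab, `Rs_count` (Ff), `count_primes` (H76/PP/Lg), `bx_finite` (Lb).

PROOF. `C` from `count_primes`. `S v = {z : Fin 5 → 𝓞 K ⧸ v | ∃ N, N.IsSymm ∧ Rs (rd v (sy m)) N ∧
z = fun j => en N (i₀.succAbove j)}`, the image of the finite set `{N | N.IsSymm ∧ Rs (rd v (sy m)) N}` of `Rs_count`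
(`k = 𝓞 K ⧸ v.asIdeal`, `Fintype.ofFinite` with `finite_residue`, `6 ≠ 0`: `six_ne`, `(sy m)` reduced is symmetric: `rd_sy`,
`sy_symm`, `det ≠ 0`: `rd_det_ne`, `Fintype.card k = Nv v`: `card_residue`). So `4 * (S v).ncard ≤ Nv v ^ 3 * (Nv v + 1) ^ 2` for
`v ∈ T` (`Set.ncard_image_le`), that is `((S v).ncard : ℝ) ≤ Nv v ^ 5 * rho v` (`rho v = (1 + 1 / Nv v)^2 / 4`, `Nv v ≠ 0`),
`∏ v ∈ T, ((S v).ncard : ℝ) ≤ (∏ v ∈ T, Nv v) ^ 5 * ∏ v ∈ T, rho v` (`Finset.prod_le_prod`, `Finset.prod_pow`, `Finset.prod_mul_distrib`).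
The map `y ↦ (fun j => y (i₀.succAbove j))` is injective on the given set: `cf m i₀ * y i₀ = - ∑ j, cf m (i₀.succAbove j) * y (i₀.succAbove j)`
(`Fin.sum_univ_succAbove`) and `cf m i₀ ≠ 0` in the domain `𝓞 K`; equality of functions by `Fin.succAboveCases` / `Fin.eq_self_or_eq_succAbove`.
It maps the set into the set of `count_primes` for `ι = Fin 5`, `S`, `fun j => t (i₀.succAbove j)` (for `v ∈ T` the matrix
`N = rd v (sy y)` is symmetric, `en N = mk ∘ y`: `rd_sy`, `en_sy`), which is finite (subset of a product of finite sets: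
`Set.Finite.pi` / `Set.finite_pi`..., `bx_finite`). `Set.ncard_le_ncard_of_injOn`.
-/

set_option autoImplicit false
open scoped Classical

open NumberField IsDedekindDomain H76PP
open scoped Matrix

namespace H54PP

section

variable {K : Type} [Field K] [NumberField K]

/-- The admissible reductions of the five entries. -/
def Ac_S (m : Fin 6 → 𝓞 K) (i₀ : Fin 6) (v : HeightOneSpectrum (𝓞 K)) : Set (Fin 5 → 𝓞 K ⧸ v.asIdeal) :=
  (fun N : Matrix (Fin 3) (Fin 3) (𝓞 K ⧸ v.asIdeal) => fun j : Fin 5 => en N (i₀.succAbove j)) ''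
    {N | N.IsSymm ∧ Rs (rd v (sy m)) N}

theorem Ac_card (m : Fin 6 → 𝓞 K) (i₀ : Fin 6) (v : HeightOneSpectrum (𝓞 K)) (h6 : (6 : 𝓞 K) ∉ v.asIdeal)
    (hd : (sy m).det ∉ v.asIdeal) : ((Ac_S m i₀ v).ncard : ℝ) ≤ (Nv v : ℝ) ^ 5 * rho v := by
  have hfin := finite_residue v
  have hft : Fintype (𝓞 K ⧸ v.asIdeal) := Fintype.ofFinite _
  have h1 := Rs_count (six_ne h6) (M := rd v (sy m)) (by rw [rd_sy]; exact sy_symm _) (rd_det_ne hd)
  have hc : Fintype.card (𝓞 K ⧸ v.asIdeal) = Nv v := by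
    rw [← Nat.card_eq_fintype_card]
    exact card_residue v
  rw [hc] at h1
  have h2 : (Ac_S m i₀ v).ncard ≤ {N : Matrix (Fin 3) (Fin 3) (𝓞 K ⧸ v.asIdeal) | N.IsSymm ∧ Rs (rd v (sy m)) N}.ncard :=
    Set.ncard_image_le (Set.toFinite _)
  have h3 : 4 * (Ac_S m i₀ v).ncard ≤ Nv v ^ 3 * (Nv v + 1) ^ 2 := (Nat.mul_le_mul_left 4 h2).trans h1
  have h4 : 4 * ((Ac_S m i₀ v).ncard : ℝ) ≤ (Nv v : ℝ) ^ 3 * ((Nv v : ℝ) + 1) ^ 2 := by exact_mod_cast h3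
  have h5 : (0 : ℝ) < Nv v := by
    have := two_le_Nv v
    exact_mod_cast (by omega : 0 < Nv v)
  have h6 : (Nv v : ℝ) ^ 5 * rho v = (Nv v : ℝ) ^ 3 * ((Nv v : ℝ) + 1) ^ 2 / 4 := by
    unfold rho
    field_simp
  rw [h6]
  linarith

end

variable (K : Type) [Field K] [NumberField K]

theorem cnt_N : ∃ C : ℝ, 1 ≤ C ∧ ∀ (T : Finset (HeightOneSpectrum (𝓞 K))) (m : Fin 6 → 𝓞 K)
    (i₀ : Fin 6) (t : Fin 6 → ℝ), (∀ i, 0 ≤ t i) → cf m i₀ ≠ 0 →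
    (∀ v ∈ T, (6 : 𝓞 K) ∉ v.asIdeal ∧ (sy m).det ∉ v.asIdeal) →
    ({y : Fin 6 → 𝓞 K | (∀ i, y i ∈ bx K (t i)) ∧ ∑ i, cf m i * y i = 0 ∧
      ∀ v ∈ T, Rs (rd v (sy m)) (rd v (sy y))}.ncard : ℝ) ≤
    (∏ v ∈ T, (Nv v : ℝ)) ^ 5 * (∏ v ∈ T, rho v) *
      ∏ j : Fin 5, (C * (t (i₀.succAbove j) ^ (Module.finrank ℚ K) /
        (∏ v ∈ T, (Nv v : ℝ)) + 1)) := by
  obtain ⟨C, hC1, hC⟩ := count_primes K
  refine ⟨C, hC1, ?_⟩
  intro T m i₀ t ht hcf hT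
  have h0 := hC (Fin 5) T (Ac_S m i₀) (fun j => t (i₀.succAbove j)) (fun j => ht _)
  obtain ⟨A, hA⟩ : ∃ A : Set (Fin 6 → 𝓞 K), A = {y : Fin 6 → 𝓞 K | (∀ i, y i ∈ bx K (t i)) ∧
    ∑ i, cf m i * y i = 0 ∧ ∀ v ∈ T, Rs (rd v (sy m)) (rd v (sy y))} := ⟨_, rfl⟩
  obtain ⟨B, hB⟩ : ∃ B : Set (Fin 5 → 𝓞 K), B = {x : Fin 5 → 𝓞 K | (∀ i, x i ∈ bx K (t (i₀.succAbove i))) ∧
        ∀ v ∈ T, (fun i => Ideal.Quotient.mk v.asIdeal (x i)) ∈ Ac_S m i₀ v} := ⟨_, rfl⟩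
  rw [← hA]
  rw [← hB] at h0
  have hBf : B.Finite := by
    refine Set.Finite.subset (Set.Finite.pi' fun i : Fin 5 => bx_finite K (t (i₀.succAbove i))) ?_
    intro x hx
    rw [hB] at hx
    exact hx.1
  have hAB : A.ncard ≤ B.ncard := by
    refine Set.ncard_le_ncard_of_injOn (fun y => fun j => y (i₀.succAbove j)) ?_ ?_ hBf
    · intro y hy
      rw [hA] at hy
      rw [hB]
      refine ⟨fun i => hy.1 _, fun v hv => ⟨rd v (sy y), ⟨?_, hy.2.2 v hv⟩, ?_⟩⟩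
      · rw [rd_sy]
        exact sy_symm _
      · funext j
        show en (rd v (sy y)) (i₀.succAbove j) = _
        rw [rd_sy, en_sy]
    · intro y hy y' hy' h
      rw [hA] at hy hy'
      have h1 : ∀ j, y (i₀.succAbove j) = y' (i₀.succAbove j) := fun j => congrFun h j
      have h2 := hy.2.1
      have h3 := hy'.2.1
      rw [Fin.sum_univ_succAbove _ i₀] at h2 h3
      have h4 : ∑ j : Fin 5, cf m (i₀.succAbove j) * y (i₀.succAbove j) =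
          ∑ j : Fin 5, cf m (i₀.succAbove j) * y' (i₀.succAbove j) :=
        Finset.sum_congr rfl fun j _ => by rw [h1 j]
      have h5 : cf m i₀ * y i₀ = cf m i₀ * y' i₀ := by
        rw [h4] at h2
        linear_combination h2 - h3
      have h6 : y i₀ = y' i₀ := mul_left_cancel₀ hcf h5
      funext i
      rcases Fin.eq_self_or_eq_succAbove i₀ i with h7 | ⟨j, h7⟩
      · rw [h7]; exact h6
      · rw [h7]; exact h1 j
  have h1 : (A.ncard : ℝ) ≤ B.ncard := by exact_mod_cast hAB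
  refine h1.trans (h0.trans ?_)
  refine mul_le_mul_of_nonneg_right ?_ (Finset.prod_nonneg fun j _ => ?_)
  · rw [← Finset.prod_pow, ← Finset.prod_mul_distrib]
    exact Finset.prod_le_prod (fun v _ => Nat.cast_nonneg _) fun v hv => Ac_card m i₀ v (hT v hv).1 (hT v hv).2
  · have h2 : 0 ≤ t (i₀.succAbove j) := ht _
    have h3 : (0 : ℝ) ≤ ∏ v ∈ T, (Nv v : ℝ) := Finset.prod_nonneg fun v _ => Nat.cast_nonneg _
    have h4 : 0 ≤ t (i₀.succAbove j) ^ (Module.finrank ℚ K) / (∏ v ∈ T, (Nv v : ℝ)) := by positivity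
    exact mul_nonneg (by linarith) (by linarith)

end H54PP
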