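import Pool.Agent.H54.PP.D0

/-!
ROW Ba (project MP_78d38b_PP, about 120 lines): the shape of the data if `l 0` is small.
Use `one_le_of_mem`, `Le_nonneg` (H76/PP/Le).

PROOF. `c5 C₂ = 1 / (2 (1 + C₂)) ≤ 1/4`, `0 < l 0 < c5 C₂`, `0 < l 0 ≤ l 1 ≤ l 2`, `l 0 * l 1 * l 2 ≤ C₂`.
`M 0 0 ∈ bx K (l 0 * l 0)` and `l 0 * l 0 < 1`, so `M 0 0 = 0` (`one_le_of_mem`), hence `N 0 0 ≠ 0` (`Dat.red`).
`(l 0 * l 1)^2 ≤ l 0 * (l 0 * l 1 * l 2) ≤ l 0 * C₂ < c5 C₂ * C₂ < 1`, so `l 0 * l 1 < 1` and `M 0 1 = 0`.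
`det M = - (M 0 2)^2 * M 1 1` (`Matrix.det_fin_three`, symmetry `M 1 0 = M 0 1` etc. from `symM.apply`), it is `≠ 0`, so
`M 0 2 ≠ 0`, `M 1 1 ≠ 0`. So `1 ≤ l 0 * l 2` and `1 ≤ l 1 * l 1` (`one_le_of_mem`), so `1 ≤ l 1`,
`l 1 ≤ l 0 * l 1 * l 2 ≤ C₂`, `l 0 * l 2 ≤ l 0 * l 1 * l 2 ≤ C₂`. `N 0 0 ∈ bx K (2 * X * (l 0 * l 0))`, `N 0 0 ≠ 0`.
-/

set_option autoImplicit false
open scoped Classical

open NumberField IsDedekindDomain H76PP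
open scoped Matrix

namespace H54PP

variable {K : Type} [Field K] [NumberField K]

theorem c5_pos {C₂ : ℝ} (h : 1 ≤ C₂) : 0 < c5 C₂ := by
  unfold c5
  have h1 : 0 < 2 * (1 + C₂) := by linarith
  exact div_pos one_pos h1

theorem c5_le {C₂ : ℝ} (h : 1 ≤ C₂) : c5 C₂ ≤ 1 / 4 := by
  unfold c5
  exact one_div_le_one_div_of_le (by norm_num) (by linarith)

theorem c5_mul {C₂ : ℝ} (h : 1 ≤ C₂) : c5 C₂ * C₂ ≤ 1 / 2 := by
  unfold c5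
  have h1 : 0 < 2 * (1 + C₂) := by linarith
  rw [div_mul_eq_mul_div, div_le_iff₀ h1]
  linarith

/-- the shape of the data -/
structure Shp (X C₂ : ℝ) (l : Fin 3 → ℝ) (M N : Matrix (Fin 3) (Fin 3) (𝓞 K)) : Prop where
  m00 : M 0 0 = 0
  m01 : M 0 1 = 0
  m02 : M 0 2 ≠ 0
  m11 : M 1 1 ≠ 0
  n00 : N 0 0 ≠ 0
  one1 : 1 ≤ l 1
  one2 : 1 ≤ l 0 * l 2
  le1 : l 1 ≤ C₂
  le2 : l 0 * l 2 ≤ C₂
  big : 1 ≤ 2 * X * (l 0 * l 0)

private theorem Ba_det {R : Type*} [CommRing R] {M : Matrix (Fin 3) (Fin 3) R} (h : M.IsSymm)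
    (h0 : M 0 0 = 0) (h1 : M 0 1 = 0) : M.det = -(M 0 2 * M 0 2 * M 1 1) := by
  have e10 : M 1 0 = 0 := (h.apply 0 1).trans h1
  have e20 : M 2 0 = M 0 2 := h.apply 0 2
  rw [Matrix.det_fin_three, h0, h1, e10, e20]
  ring

theorem shape {X C₂ : ℝ} (hC : 1 ≤ C₂) {T : Finset (HeightOneSpectrum (𝓞 K))} {A B : 𝓞 K}
    {l : Fin 3 → ℝ} {M N : Matrix (Fin 3) (Fin 3) (𝓞 K)} (h : Dat X C₂ T A B l M N)
    (hl : l 0 < c5 C₂) : Shp X C₂ l M N := by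
  have hc := c5_le hC
  have hm := c5_mul hC
  have p0 := h.pos
  have p1 : 0 < l 1 := p0.trans_le h.le01
  have p2 : 0 < l 2 := p1.trans_le h.le12
  have hM : ∀ i j, M i j ≠ 0 → 1 ≤ l i * l j := fun i j hij =>
    one_le_of_mem (fun s => h.bdM s i j) hij
  have hN : ∀ i j, N i j ≠ 0 → 1 ≤ 2 * X * (l i * l j) := fun i j hij =>
    one_le_of_mem (fun s => h.bdN s i j) hij
  have m00 : M 0 0 = 0 := by
    by_contra h0
    have h1 := hM 0 0 h0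
    nlinarith
  have n00 : N 0 0 ≠ 0 := h.red m00
  have hprod : (l 0 * l 1) * (l 0 * l 1) ≤ l 0 * C₂ := by
    have h1 : (l 0 * l 1) * (l 0 * l 1) ≤ l 0 * (l 0 * l 1 * l 2) := by
      have h2 : l 0 * (l 0 * l 1) * l 1 ≤ l 0 * (l 0 * l 1) * l 2 :=
        mul_le_mul_of_nonneg_left h.le12 (by positivity)
      calc (l 0 * l 1) * (l 0 * l 1) = l 0 * (l 0 * l 1) * l 1 := by ring
        _ ≤ l 0 * (l 0 * l 1) * l 2 := h2
        _ = l 0 * (l 0 * l 1 * l 2) := by ring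
    exact h1.trans (mul_le_mul_of_nonneg_left h.prod p0.le)
  have hlt : l 0 * C₂ < 1 := by
    have h1 : l 0 * C₂ ≤ c5 C₂ * C₂ := mul_le_mul_of_nonneg_right hl.le (by linarith)
    linarith
  have m01 : M 0 1 = 0 := by
    by_contra h0
    have h1 := hM 0 1 h0
    nlinarith
  have hdet := h.detM
  rw [Ba_det h.symM m00 m01] at hdet
  have m02 : M 0 2 ≠ 0 := by
    intro h0
    apply hdet
    rw [h0, zero_mul, zero_mul, neg_zero]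
  have m11 : M 1 1 ≠ 0 := by
    intro h0
    apply hdet
    rw [h0, mul_zero, neg_zero]
  have one2 := hM 0 2 m02
  have one1' := hM 1 1 m11
  have one1 : 1 ≤ l 1 := by
    by_contra h0
    rw [not_le] at h0
    nlinarith
  have hp := h.prod
  refine ⟨m00, m01, m02, m11, n00, one1, one2, ?_, ?_, hN 0 0 n00⟩
  · have h1 : l 1 * 1 ≤ l 1 * (l 0 * l 2) := mul_le_mul_of_nonneg_left one2 p1.le
    calc l 1 = l 1 * 1 := (mul_one _).symm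
      _ ≤ l 1 * (l 0 * l 2) := h1
      _ = l 0 * l 1 * l 2 := by ring
      _ ≤ C₂ := hp
  · have h1 : (l 0 * l 2) * 1 ≤ (l 0 * l 2) * l 1 :=
      mul_le_mul_of_nonneg_left one1 (by positivity)
    calc l 0 * l 2 = (l 0 * l 2) * 1 := (mul_one _).symm
      _ ≤ (l 0 * l 2) * l 1 := h1
      _ = l 0 * l 1 * l 2 := by ring
      _ ≤ C₂ := hp

end H54PP
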