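import Pool.Agent.H54.PP.D0

/-!
ROW Bb (project MP_78d38b_PP, about 120 lines): sizes of the entries of `Pᵀ M P` for the unipotent
matrix `P = pm a b c`.

PROOF.
(1) `quad_bd`: `(Pᵀ * M * P) i j = ∑ u, ∑ w, P u i * M u w * P w j` (`Matrix.mul_apply`, `Matrix.transpose_apply`,
`Finset.sum_mul`, sums exchanged: `Finset.sum_comm`; or all explicitly with `Fin.sum_univ_three`), the norm of each term is `≤ ‖s (P u i)‖ * (κ * (l u * l w)) * ‖s (P w j)‖`,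
sum up (`norm_sum_le`, `Finset.sum_le_sum`), and factor (`Finset.sum_mul_sum`, or `Fin.sum_univ_three` and `ring`).
(2) `rad`: `P = pm a b c = !![1, a, c; 0, 1, b; 0, 0, 1]`: the three sums are `l 0`, `‖s a‖ l 0 + l 1`,
`‖s c‖ l 0 + ‖s b‖ l 1 + l 2`. With `0 < l 0 ≤ τ`, `τ / 2 < l 0`, `l 1 ≤ C₂`, `l 0 * l 2 ≤ C₂`, `1 ≤ C₂`, `τ ≤ 1`: `l 2 ≤ C₂ / l 0 ≤ 2 C₂ / τ`; the second is
`≤ (1 / τ) τ + C₂ = 1 + C₂ ≤ 3 C₂ + 1`, the third `≤ (1 / τ^2) τ + (1 / τ) C₂ + 2 C₂ / τ = (3 C₂ + 1) / τ`.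
(3) `quad_pm`: combine.
-/

set_option autoImplicit false
open scoped Classical

open NumberField IsDedekindDomain H76PP
open scoped Matrix

namespace H54PP

variable {K : Type} [Field K] [NumberField K]

theorem quad_bd {M P : Matrix (Fin 3) (Fin 3) (𝓞 K)} {l : Fin 3 → ℝ} {κ : ℝ}
    (hκ : 0 ≤ κ) (hl : ∀ i, 0 ≤ l i) (s : K →+* ℂ)
    (h : ∀ i j, ‖s (M i j : K)‖ ≤ κ * (l i * l j)) (i j : Fin 3) :
    ‖s ((Pᵀ * M * P) i j : K)‖ ≤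
      κ * ((∑ u, ‖s (P u i : K)‖ * l u) * (∑ w, ‖s (P w j : K)‖ * l w)) := by
  have e : (Pᵀ * M * P) i j = ∑ w, ∑ u, P u i * M u w * P w j := by
    rw [Matrix.mul_apply]
    refine Finset.sum_congr rfl fun w _ => ?_
    rw [Matrix.mul_apply, Finset.sum_mul]
    rfl
  have h3 : ‖s ((Pᵀ * M * P) i j : K)‖ ≤
      ∑ w, ∑ u, ‖s (P u i : K)‖ * (κ * (l u * l w)) * ‖s (P w j : K)‖ := by
    change ‖s (algebraMap (𝓞 K) K ((Pᵀ * M * P) i j))‖ ≤ _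
    rw [e, map_sum, map_sum]
    refine (norm_sum_le _ _).trans (Finset.sum_le_sum fun w _ => ?_)
    rw [map_sum, map_sum]
    refine (norm_sum_le _ _).trans (Finset.sum_le_sum fun u _ => ?_)
    rw [map_mul, map_mul, map_mul, map_mul, norm_mul, norm_mul]
    exact mul_le_mul_of_nonneg_right (mul_le_mul_of_nonneg_left (h u w) (norm_nonneg _))
      (norm_nonneg _)
  refine h3.trans (le_of_eq ?_)
  simp only [Fin.sum_univ_three]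
  ring

/-- the bounds for the lengths of the columns of `P` -/
noncomputable def rr (τ G : ℝ) : Fin 3 → ℝ := ![τ, G, G / τ]

theorem rad {C₂ τ : ℝ} (hC : 1 ≤ C₂) (hτ0 : 0 < τ) (hτ1 : τ ≤ 1) {l : Fin 3 → ℝ}
    (h0 : τ / 2 < l 0) (h0' : l 0 ≤ τ) (h1 : 0 ≤ l 1) (h1' : l 1 ≤ C₂) (h2 : 0 ≤ l 2)
    (h2' : l 0 * l 2 ≤ C₂) {a b c : 𝓞 K} (ha : a ∈ bx K (1 / τ)) (hb : b ∈ bx K (1 / τ))
    (hc : c ∈ bx K (1 / τ ^ 2)) (s : K →+* ℂ) (i : Fin 3) :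
    ∑ u, ‖s (pm a b c u i : K)‖ * l u ≤ rr τ (3 * C₂ + 1) i := by
  have e1 : ‖s (((1 : 𝓞 K)) : K)‖ = 1 := by
    change ‖s (algebraMap (𝓞 K) K 1)‖ = 1
    rw [map_one, map_one, norm_one]
  have e0 : ‖s (((0 : 𝓞 K)) : K)‖ = 0 := by
    change ‖s (algebraMap (𝓞 K) K 0)‖ = 0
    rw [map_zero, map_zero, norm_zero]
  have ha' : ‖s (a : K)‖ ≤ 1 / τ := ha s
  have hb' : ‖s (b : K)‖ ≤ 1 / τ := hb s
  have hc' : ‖s (c : K)‖ ≤ 1 / τ ^ 2 := hc s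
  have hl0 : 0 ≤ l 0 := by linarith
  have hl2 : l 2 ≤ 2 * C₂ / τ := by
    rw [le_div_iff₀ hτ0]
    nlinarith
  rw [Fin.sum_univ_three]
  fin_cases i
  · change ‖s ((1 : 𝓞 K) : K)‖ * l 0 + ‖s ((0 : 𝓞 K) : K)‖ * l 1 +
      ‖s ((0 : 𝓞 K) : K)‖ * l 2 ≤ τ
    rw [e1, e0]
    linarith
  · change ‖s (a : K)‖ * l 0 + ‖s ((1 : 𝓞 K) : K)‖ * l 1 +
      ‖s ((0 : 𝓞 K) : K)‖ * l 2 ≤ 3 * C₂ + 1
    rw [e1, e0]
    have h3 : ‖s (a : K)‖ * l 0 ≤ 1 / τ * τ := mul_le_mul ha' h0' hl0 (by positivity)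
    have h4 : 1 / τ * τ = 1 := by field_simp
    linarith
  · change ‖s (c : K)‖ * l 0 + ‖s (b : K)‖ * l 1 + ‖s ((1 : 𝓞 K) : K)‖ * l 2 ≤ (3 * C₂ + 1) / τ
    rw [e1]
    have h3 : ‖s (c : K)‖ * l 0 ≤ 1 / τ ^ 2 * τ := mul_le_mul hc' h0' hl0 (by positivity)
    have h5 : ‖s (b : K)‖ * l 1 ≤ 1 / τ * C₂ := mul_le_mul hb' h1' h1 (by positivity)
    have h4 : (3 * C₂ + 1) / τ = 1 / τ ^ 2 * τ + 1 / τ * C₂ + 2 * C₂ / τ := by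
      field_simp
      ring
    rw [h4]
    linarith

theorem Bb_pm (a b c : 𝓞 K) (u i : Fin 3) :
    pm (a : K) (b : K) (c : K) u i = algebraMap (𝓞 K) K ((pm a b c : Matrix (Fin 3) (Fin 3) (𝓞 K)) u i) := by
  fin_cases u <;> fin_cases i <;> first
    | rfl
    | exact (map_one (algebraMap (𝓞 K) K)).symm
    | exact (map_zero (algebraMap (𝓞 K) K)).symm

theorem quad_pm {C₂ τ κ : ℝ} (hC : 1 ≤ C₂) (hτ0 : 0 < τ) (hτ1 : τ ≤ 1) (hκ : 0 ≤ κ)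
    {l : Fin 3 → ℝ} (h0 : τ / 2 < l 0) (h0' : l 0 ≤ τ) (h1 : 0 ≤ l 1) (h1' : l 1 ≤ C₂)
    (h2 : 0 ≤ l 2) (h2' : l 0 * l 2 ≤ C₂) {a b c : 𝓞 K} (ha : a ∈ bx K (1 / τ))
    (hb : b ∈ bx K (1 / τ)) (hc : c ∈ bx K (1 / τ ^ 2)) {M : Matrix (Fin 3) (Fin 3) (𝓞 K)}
    (h : ∀ (s : K →+* ℂ) (i j : Fin 3), ‖s (M i j : K)‖ ≤ κ * (l i * l j)) (i j : Fin 3) :
    ((pm a b c)ᵀ * M * pm a b c) i j ∈ bx K (κ * (rr τ (3 * C₂ + 1) i * rr τ (3 * C₂ + 1) j)) := by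
  intro s
  have hl : ∀ i, 0 ≤ l i := by
    intro i
    fin_cases i
    · change 0 ≤ l 0
      linarith
    · exact h1
    · exact h2
  have hn : ∀ i, 0 ≤ ∑ u, ‖s (algebraMap (𝓞 K) K ((pm a b c : Matrix (Fin 3) (Fin 3) (𝓞 K)) u i))‖ *
      l u := fun i =>
    Finset.sum_nonneg fun u _ => mul_nonneg (norm_nonneg _) (hl u)
  have hr := rad hC hτ0 hτ1 h0 h0' h1 h1' h2 h2' ha hb hc s
  simp only [Bb_pm] at hr
  refine (quad_bd hκ hl s (h s) i j).trans ?_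
  exact mul_le_mul_of_nonneg_left (mul_le_mul (hr i) (hr j) (hn j) ((hn i).trans (hr i))) hκ

end H54PP
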