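import Pool.Agent.H54.PP.Aa
import Pool.Agent.H54.PP.Ab
import Pool.Agent.H54.PP.Ba
import Pool.Agent.H54.PP.Bb

/-!
ROW Bc (project MP_78d38b_PP, about 150 lines): the pairs `(Pᵀ M P, Pᵀ N P)` satisfy `Tgt`.
Use the STATEMENTS of Aa, Ab, Ba, Bb.

PROOF. `P = pm a b c`, `det P = 1` (`pm_det`), `G = 3 C₂ + 1`, `M' = Pᵀ M P`, `N' = Pᵀ N P`; `Shp` from `shape` (`l 0 ≤ τ`, so use
`l 0 < c5 C₂`: hypothesis `hl`). `τ ≤ c5 C₂ ≤ 1/4 ≤ 1`.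
(1) `conj_symm`: `(Pᵀ M P)ᵀ = Pᵀ Mᵀ P` (`Matrix.transpose_mul`). `conj_det`: `Matrix.det_mul`, `Matrix.det_transpose`.
(2) `conj_char`: `x • (Pᵀ M P) - Pᵀ N P = Pᵀ (x • M - N) P`, determinant, `conj_det`.
(3) entries of `M'` (`Matrix.mul_apply`, `Fin.sum_univ_three`, `simp [pm]`, `ring`; `M 1 0 = M 0 1 = 0`, `M 2 0 = M 0 2`, `M 2 1 = M 1 2`):
`M' 0 0 = M 0 0 = 0`, `M' 0 1 = M 0 1 + a M 0 0 = 0`, `M' 0 2 = M 0 2 + b M 0 1 + c M 0 0 = M 0 2 ≠ 0`,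
`M' 1 1 = M 1 1 + 2 a M 0 1 + a^2 M 0 0 = M 1 1 ≠ 0`.
Bounds: `quad_pm` with `κ = 1` for `M'` (`M' 0 2`: `τ * (G / τ) = G`; `G * G = G^2`; `G * (G / τ)`; `(G / τ) * (G / τ) = G^2 / τ^2`) and
`κ = 2 X` for `N'` (`X ≥ 0` as `1 ≤ 2 X (l 0 * l 0)`), the six bounds are `tt X τ G`.
`tr`: `char_cf` for `M'`, `N'`. `rs`: `sy (en M') = M'` (`sy_en`), `det M' = det M`, `Dat.res`, `Rs_rd_conj`.
-/

set_option autoImplicit false
open scoped Classical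

open NumberField IsDedekindDomain H76PP
open scoped Matrix

namespace H54PP

theorem conj_symm {R : Type*} [CommRing R] {M : Matrix (Fin 3) (Fin 3) R} (hM : M.IsSymm)
    (P : Matrix (Fin 3) (Fin 3) R) : (Pᵀ * M * P).IsSymm := by
  show (Pᵀ * M * P)ᵀ = Pᵀ * M * P
  rw [Matrix.transpose_mul, Matrix.transpose_mul, Matrix.transpose_transpose, hM.eq,
    ← Matrix.mul_assoc]

theorem conj_det {R : Type*} [CommRing R] (M : Matrix (Fin 3) (Fin 3) R)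
    {P : Matrix (Fin 3) (Fin 3) R} (hP : P.det = 1) : (Pᵀ * M * P).det = M.det := by
  rw [Matrix.det_mul, Matrix.det_mul, Matrix.det_transpose, hP, one_mul, mul_one]

theorem conj_char {R : Type*} [CommRing R] {M N P : Matrix (Fin 3) (Fin 3) R} (hP : P.det = 1)
    {A B : R} (h : ∀ x : R, (x • M - N).det = M.det * (x ^ 3 + A * x + B)) (x : R) :
    (x • (Pᵀ * M * P) - Pᵀ * N * P).det = (Pᵀ * M * P).det * (x ^ 3 + A * x + B) := by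
  have h1 : x • (Pᵀ * M * P) - Pᵀ * N * P = Pᵀ * (x • M - N) * P := by
    rw [Matrix.mul_sub, Matrix.sub_mul, Matrix.mul_smul, Matrix.smul_mul]
  rw [h1, conj_det _ hP, conj_det _ hP, h]

lemma Bc_ent {R : Type*} [CommRing R] {M : Matrix (Fin 3) (Fin 3) R} (hM : M.IsSymm)
    (a b c : R) : ((pm a b c)ᵀ * M * pm a b c) 0 0 = M 0 0 ∧
      ((pm a b c)ᵀ * M * pm a b c) 0 1 = M 0 1 + a * M 0 0 ∧
      ((pm a b c)ᵀ * M * pm a b c) 0 2 = M 0 2 + b * M 0 1 + c * M 0 0 ∧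
      ((pm a b c)ᵀ * M * pm a b c) 1 1 = M 1 1 + 2 * a * M 0 1 + a ^ 2 * M 0 0 := by
  have h1 : M 1 0 = M 0 1 := hM.apply 0 1
  refine ⟨?_, ?_, ?_, ?_⟩ <;>
    simp [pm, Matrix.mul_apply, Fin.sum_univ_three, h1] <;> ring

variable {K : Type} [Field K] [NumberField K]

theorem to_tgt {X C₂ τ : ℝ} (hC : 1 ≤ C₂) (hτ : τ ≤ c5 C₂)
    {T : Finset (HeightOneSpectrum (𝓞 K))} {A B : 𝓞 K} {l : Fin 3 → ℝ}
    {M N : Matrix (Fin 3) (Fin 3) (𝓞 K)} (h : Dat X C₂ T A B l M N) (hl : l 0 < c5 C₂)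
    (h0 : τ / 2 < l 0) (h0' : l 0 ≤ τ) {a b c : 𝓞 K} (ha : a ∈ bx K (1 / τ))
    (hb : b ∈ bx K (1 / τ)) (hc : c ∈ bx K (1 / τ ^ 2)) :
    Tgt X τ (3 * C₂ + 1) T (en ((pm a b c)ᵀ * M * pm a b c)) (en ((pm a b c)ᵀ * N * pm a b c)) := by
  have S := shape hC h hl
  have hτ0 : 0 < τ := lt_of_lt_of_le h.pos h0'
  have hτ1 : τ ≤ 1 := (hτ.trans (c5_le hC)).trans (by norm_num)
  have hl1 : 0 ≤ l 1 := h.pos.le.trans h.le01
  have hl2 : 0 ≤ l 2 := hl1.trans h.le12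
  have hX : 0 ≤ 2 * X := by
    have h1 : 0 < l 0 * l 0 := mul_pos h.pos h.pos
    by_contra hcon
    push Not at hcon
    have h2 := mul_neg_of_neg_of_pos hcon h1
    linarith [S.big]
  have hM' := conj_symm h.symM (pm a b c)
  have hN' := conj_symm h.symN (pm a b c)
  have hQM := quad_pm (κ := 1) hC hτ0 hτ1 zero_le_one h0 h0' hl1 S.le1 hl2 S.le2 ha hb hc
    (M := M) (fun s i j => by rw [one_mul]; exact h.bdM s i j)
  have hQN := quad_pm (κ := 2 * X) hC hτ0 hτ1 hX h0 h0' hl1 S.le1 hl2 S.le2 ha hb hc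
    (M := N) (fun s i j => h.bdN s i j)
  have hτne := hτ0.ne'
  obtain ⟨e00, e01, e02, e11⟩ := Bc_ent h.symM a b c
  rw [S.m00] at e00 e01 e02 e11
  rw [S.m01] at e01 e02 e11
  refine ⟨⟨?_, ?_, ?_, ?_, ?_, ?_, ?_, ?_⟩, ?_, ?_, ?_⟩
  · exact e00
  · show ((pm a b c)ᵀ * M * pm a b c) 0 1 = 0
    rw [e01]
    ring
  · show ((pm a b c)ᵀ * M * pm a b c) 0 2 ≠ 0
    rw [e02, mul_zero, mul_zero, add_zero, add_zero]
    exact S.m02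
  · show ((pm a b c)ᵀ * M * pm a b c) 1 1 ≠ 0
    rw [e11, mul_zero, mul_zero, add_zero, add_zero]
    exact S.m11
  · have e : 1 * (rr τ (3 * C₂ + 1) 0 * rr τ (3 * C₂ + 1) 2) = 3 * C₂ + 1 := by
      show 1 * (τ * ((3 * C₂ + 1) / τ)) = 3 * C₂ + 1
      field_simp
    have := hQM 0 2
    rw [e] at this
    exact this
  · have e : 1 * (rr τ (3 * C₂ + 1) 1 * rr τ (3 * C₂ + 1) 1) = (3 * C₂ + 1) ^ 2 := by
      show 1 * ((3 * C₂ + 1) * (3 * C₂ + 1)) = (3 * C₂ + 1) ^ 2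
      ring
    have := hQM 1 1
    rw [e] at this
    exact this
  · have e : 1 * (rr τ (3 * C₂ + 1) 1 * rr τ (3 * C₂ + 1) 2) = (3 * C₂ + 1) ^ 2 / τ := by
      show 1 * ((3 * C₂ + 1) * ((3 * C₂ + 1) / τ)) = (3 * C₂ + 1) ^ 2 / τ
      ring
    have := hQM 1 2
    rw [e] at this
    exact this
  · have e : 1 * (rr τ (3 * C₂ + 1) 2 * rr τ (3 * C₂ + 1) 2) = (3 * C₂ + 1) ^ 2 / τ ^ 2 := by
      show 1 * (((3 * C₂ + 1) / τ) * ((3 * C₂ + 1) / τ)) = (3 * C₂ + 1) ^ 2 / τ ^ 2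
      field_simp
    have := hQM 2 2
    rw [e] at this
    exact this
  · exact (char_cf hM' hN' (conj_char (pm_det a b c) h.char)).1
  · have e0 : 2 * X * (rr τ (3 * C₂ + 1) 0 * rr τ (3 * C₂ + 1) 0) = tt X τ (3 * C₂ + 1) 0 := by
      show 2 * X * (τ * τ) = 2 * X * τ ^ 2
      ring
    have e1 : 2 * X * (rr τ (3 * C₂ + 1) 0 * rr τ (3 * C₂ + 1) 1) = tt X τ (3 * C₂ + 1) 1 := by
      show 2 * X * (τ * (3 * C₂ + 1)) = 2 * X * (3 * C₂ + 1) * τ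
      ring
    have e2 : 2 * X * (rr τ (3 * C₂ + 1) 0 * rr τ (3 * C₂ + 1) 2) = tt X τ (3 * C₂ + 1) 2 := by
      show 2 * X * (τ * ((3 * C₂ + 1) / τ)) = 2 * X * (3 * C₂ + 1)
      field_simp
    have e3 : 2 * X * (rr τ (3 * C₂ + 1) 1 * rr τ (3 * C₂ + 1) 1) = tt X τ (3 * C₂ + 1) 3 := by
      show 2 * X * ((3 * C₂ + 1) * (3 * C₂ + 1)) = 2 * X * (3 * C₂ + 1) ^ 2
      ring
    have e4 : 2 * X * (rr τ (3 * C₂ + 1) 1 * rr τ (3 * C₂ + 1) 2) = tt X τ (3 * C₂ + 1) 4 := by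
      show 2 * X * ((3 * C₂ + 1) * ((3 * C₂ + 1) / τ)) = 2 * X * (3 * C₂ + 1) ^ 2 / τ
      ring
    have e5 : 2 * X * (rr τ (3 * C₂ + 1) 2 * rr τ (3 * C₂ + 1) 2) = tt X τ (3 * C₂ + 1) 5 := by
      show 2 * X * (((3 * C₂ + 1) / τ) * ((3 * C₂ + 1) / τ)) = 2 * X * (3 * C₂ + 1) ^ 2 / τ ^ 2
      field_simp
    have f0 := hQN 0 0
    have f1 := hQN 0 1
    have f2 := hQN 0 2
    have f3 := hQN 1 1
    have f4 := hQN 1 2
    have f5 := hQN 2 2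
    rw [e0] at f0
    rw [e1] at f1
    rw [e2] at f2
    rw [e3] at f3
    rw [e4] at f4
    rw [e5] at f5
    intro i
    fin_cases i
    · exact f0
    · exact f1
    · exact f2
    · exact f3
    · exact f4
    · exact f5
  · intro v hv hd
    rw [sy_en hM'] at hd ⊢
    rw [sy_en hN']
    rw [conj_det _ (pm_det a b c)] at hd
    exact Rs_rd_conj (pm_det a b c) (h.res v hv hd)

end H54PP
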