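import Pool.Agent.H54.PP.Aa
import Pool.Agent.H54.PP.Bc

/-!
ROW Bd (project MP_78d38b_PP, about 120 lines): injectivity of the change of basis.
Use the STATEMENTS `conj_symm`, `conj_det`, `conj_char` (Bc), `char_unique`, (Aa), `sy_en` (D0).

PROOF.
(1) `pm_inv`: `pm a b c * pm (-a) (-b) (a * b - c) = 1` and `pm (-a) (-b) (a * b - c) * pm a b c = 1`: entrywise
(`Matrix.ext`, `fin_cases`, `simp [pm, Matrix.mul_apply, Fin.sum_univ_three]`, `ring`). `pm_fix`: the first column is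
`(1, 0, 0)`. `pm_inj`: compare the entries `0 1`, `1 2`, `0 2`.
(2) `same_pair`: put `P = pm a b c`, `P' = pm a' b' c'`. `en (Pᵀ M P) = en (P'ᵀ M' P')` and both matrices symmetric, so
they are equal (`sy_en`), same for `N`. By `conj_char` for both and `char_unique` (`det (Pᵀ M P) = det M ≠ 0`): `A = A'`, `B = B'`.
(3) `same_P`: `PᵀMP = P'ᵀMP'`, `PᵀNP = P'ᵀNP'`, `Pi = P⁻¹` (`pm_inv`), `Q = P' * Pi`: `Qᵀ M Q = Piᵀ P'ᵀ M P' Pi = Piᵀ Pᵀ M P Pi = M`, same
for `N`; `Q e = e` for `e = ![1, 0, 0]` (`Pi e = e`, `P' e = e`). So `Q = 1` (`Dat.fix`), `P' = Q P = P`, `pm_inj`.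
-/

set_option autoImplicit false
open scoped Classical

open NumberField IsDedekindDomain H76PP
open scoped Matrix

namespace H54PP

theorem pm_inv {R : Type*} [CommRing R] (a b c : R) :
    pm a b c * pm (-a) (-b) (a * b - c) = 1 ∧ pm (-a) (-b) (a * b - c) * pm a b c = 1 := by
  constructor
  · ext i j
    fin_cases i <;> fin_cases j <;> simp [pm, Matrix.mul_apply, Fin.sum_univ_three] <;> ring
  · ext i j
    fin_cases i <;> fin_cases j <;> simp [pm, Matrix.mul_apply, Fin.sum_univ_three] <;> ring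

theorem pm_fix {R : Type*} [CommRing R] (a b c : R) :
    (pm a b c).mulVec ![1, 0, 0] = ![1, 0, 0] := by
  ext i
  fin_cases i <;> simp [pm, Matrix.mulVec, dotProduct, Fin.sum_univ_three]

theorem pm_inj {R : Type*} [CommRing R] {a b c a' b' c' : R} (h : pm a b c = pm a' b' c') :
    a = a' ∧ b = b' ∧ c = c' := by
  have h1 := congrFun (congrFun h 0) 1
  have h2 := congrFun (congrFun h 1) 2
  have h3 := congrFun (congrFun h 0) 2
  exact ⟨h1, h2, h3⟩

variable {K : Type} [Field K] [NumberField K]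

theorem same_pair {X C₂ : ℝ} {T : Finset (HeightOneSpectrum (𝓞 K))} {A B A' B' : 𝓞 K}
    {l l' : Fin 3 → ℝ} {M N M' N' : Matrix (Fin 3) (Fin 3) (𝓞 K)} (h : Dat X C₂ T A B l M N)
    (h' : Dat X C₂ T A' B' l' M' N') {a b c a' b' c' : 𝓞 K}
    (e1 : en ((pm a b c)ᵀ * M * pm a b c) = en ((pm a' b' c')ᵀ * M' * pm a' b' c'))
    (e2 : en ((pm a b c)ᵀ * N * pm a b c) = en ((pm a' b' c')ᵀ * N' * pm a' b' c')) :
    A = A' ∧ B = B' := by
  have s1 : (pm a b c)ᵀ * M * pm a b c = (pm a' b' c')ᵀ * M' * pm a' b' c' := by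
    rw [← sy_en (conj_symm h.symM (pm a b c)), e1, sy_en (conj_symm h'.symM (pm a' b' c'))]
  have s2 : (pm a b c)ᵀ * N * pm a b c = (pm a' b' c')ᵀ * N' * pm a' b' c' := by
    rw [← sy_en (conj_symm h.symN (pm a b c)), e2, sy_en (conj_symm h'.symN (pm a' b' c'))]
  have c1 := conj_char (pm_det a b c) h.char
  have c2 := conj_char (pm_det a' b' c') h'.char
  rw [← s1, ← s2] at c2
  refine char_unique (conj_symm h.symM (pm a b c)) (conj_symm h.symN (pm a b c)) ?_ c1 c2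
  rw [conj_det M (pm_det a b c)]
  exact h.detM

theorem Bd_conj {R : Type*} [CommRing R] {M P P' Q : Matrix (Fin 3) (Fin 3) R}
    (hPQ : P * Q = 1) (s : Pᵀ * M * P = P'ᵀ * M * P') : (P' * Q)ᵀ * M * (P' * Q) = M := by
  have hQP : Qᵀ * Pᵀ = 1 := by rw [← Matrix.transpose_mul, hPQ, Matrix.transpose_one]
  calc (P' * Q)ᵀ * M * (P' * Q) = Qᵀ * (P'ᵀ * M * P') * Q := by
        rw [Matrix.transpose_mul]; simp only [Matrix.mul_assoc]
    _ = Qᵀ * (Pᵀ * M * P) * Q := by rw [s]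
    _ = (Qᵀ * Pᵀ) * M * (P * Q) := by simp only [Matrix.mul_assoc]
    _ = M := by rw [hQP, hPQ, Matrix.one_mul, Matrix.mul_one]

theorem same_P {X C₂ : ℝ} {T : Finset (HeightOneSpectrum (𝓞 K))} {A B : 𝓞 K}
    {l : Fin 3 → ℝ} {M N : Matrix (Fin 3) (Fin 3) (𝓞 K)} (h : Dat X C₂ T A B l M N)
    {a b c a' b' c' : 𝓞 K}
    (e1 : en ((pm a b c)ᵀ * M * pm a b c) = en ((pm a' b' c')ᵀ * M * pm a' b' c'))
    (e2 : en ((pm a b c)ᵀ * N * pm a b c) = en ((pm a' b' c')ᵀ * N * pm a' b' c')) :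
    a = a' ∧ b = b' ∧ c = c' := by
  have s1 : (pm a b c)ᵀ * M * pm a b c = (pm a' b' c')ᵀ * M * pm a' b' c' := by
    rw [← sy_en (conj_symm h.symM (pm a b c)), e1, sy_en (conj_symm h.symM (pm a' b' c'))]
  have s2 : (pm a b c)ᵀ * N * pm a b c = (pm a' b' c')ᵀ * N * pm a' b' c' := by
    rw [← sy_en (conj_symm h.symN (pm a b c)), e2, sy_en (conj_symm h.symN (pm a' b' c'))]
  obtain ⟨i1, i2⟩ := pm_inv a b c
  have hQ : pm a' b' c' * pm (-a) (-b) (a * b - c) = 1 := by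
    refine h.fix _ (Bd_conj i1 s1) (Bd_conj i1 s2) ⟨![1, 0, 0], ?_, ?_⟩
    · intro h0
      have h1 := congrFun h0 0
      exact one_ne_zero h1
    · rw [← Matrix.mulVec_mulVec, pm_fix, pm_fix]
  have hP : pm a' b' c' = pm a b c := by
    calc pm a' b' c' = pm a' b' c' * (pm (-a) (-b) (a * b - c) * pm a b c) := by rw [i2, Matrix.mul_one]
      _ = pm a b c := by rw [← Matrix.mul_assoc, hQ, Matrix.one_mul]
  exact pm_inj hP.symm

end H54PP
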