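import Pool.Agent.H54.PP.D0

/-!
ROW Be (project MP_78d38b_PP, about 110 lines): the number of matrices `M'`.
Use `bx_upper`, `bx_finite` (H76/PP/Lb).

PROOF. `C` from `bx_upper`, the constant is `C ^ 4`. The map `m ↦ (m 2, m 3, m 4, m 5)` is injective on the set (`m 0 = m 1 = 0`;
`funext i; fin_cases i`) and maps it into `bx K G ×ˢ (bx K (G^2) ×ˢ (bx K (G^2/τ) ×ˢ bx K (G^2/τ^2)))`, a finite set
(`Set.Finite.prod`), of cardinality (`Set.ncard_prod`) at most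
`C G^n * C (G^2)^n * C (G^2/τ)^n * C (G^2/τ^2)^n = C^4 * (G^(7 n) * (1/τ)^(3 n))` (all four radii are `≥ 1`).
Finiteness of the given set: `Set.Finite.of_finite_image` / `Set.Finite.of_injOn`, then `Set.ncard_le_ncard_of_injOn`.
-/

set_option autoImplicit false
open scoped Classical

open NumberField IsDedekindDomain H76PP

namespace H54PP

variable (K : Type) [Field K] [NumberField K]

def Be_f (m : Fin 6 → 𝓞 K) : 𝓞 K × 𝓞 K × 𝓞 K × 𝓞 K := (m 2, m 3, m 4, m 5)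

theorem Be_inj (τ G : ℝ) : Set.InjOn (Be_f K) {m : Fin 6 → 𝓞 K | TgM τ G m} := by
  intro m hm m' hm' h
  have h2 : m 2 = m' 2 := congrArg (fun p => p.1) h
  have h3 : m 3 = m' 3 := congrArg (fun p => p.2.1) h
  have h4 : m 4 = m' 4 := congrArg (fun p => p.2.2.1) h
  have h5 : m 5 = m' 5 := congrArg (fun p => p.2.2.2) h
  funext i
  fin_cases i
  · exact hm.m0.trans hm'.m0.symm
  · exact hm.m1.trans hm'.m1.symm
  · exact h2
  · exact h3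
  · exact h4
  · exact h5

theorem Be_map {τ G : ℝ} (m : Fin 6 → 𝓞 K) (hm : m ∈ {m : Fin 6 → 𝓞 K | TgM τ G m}) :
    Be_f K m ∈ bx K G ×ˢ (bx K (G ^ 2) ×ˢ (bx K (G ^ 2 / τ) ×ˢ bx K (G ^ 2 / τ ^ 2))) :=
  ⟨hm.b2, hm.b3, hm.b4, hm.b5⟩

theorem Be_fin (τ G : ℝ) :
    (bx K G ×ˢ (bx K (G ^ 2) ×ˢ (bx K (G ^ 2 / τ) ×ˢ bx K (G ^ 2 / τ ^ 2)))).Finite :=
  (bx_finite K _).prod ((bx_finite K _).prod ((bx_finite K _).prod (bx_finite K _)))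

theorem TgM_finite (τ G : ℝ) : {m : Fin 6 → 𝓞 K | TgM τ G m}.Finite :=
  Set.Finite.of_injOn (fun m hm => Be_map K m hm) (Be_inj K τ G) (Be_fin K τ G)

theorem cnt_TgM : ∃ C : ℝ, 1 ≤ C ∧ ∀ τ G : ℝ, 0 < τ → τ ≤ 1 → 1 ≤ G →
    ({m : Fin 6 → 𝓞 K | TgM τ G m}.ncard : ℝ) ≤
      C * (G ^ (7 * Module.finrank ℚ K) * (1 / τ) ^ (3 * Module.finrank ℚ K)) := by
  obtain ⟨C, hC1, hC⟩ := bx_upper K
  refine ⟨C ^ 4, one_le_pow₀ hC1, ?_⟩
  intro τ G hτ hτ1 hG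
  have h0 : ({m : Fin 6 → 𝓞 K | TgM τ G m}.ncard : ℝ) ≤
      ((bx K G ×ˢ (bx K (G ^ 2) ×ˢ (bx K (G ^ 2 / τ) ×ˢ bx K (G ^ 2 / τ ^ 2)))).ncard : ℝ) := by
    exact_mod_cast Set.ncard_le_ncard_of_injOn (Be_f K) (fun m hm => Be_map K m hm)
      (Be_inj K τ G) (Be_fin K τ G)
  have hG2 : 1 ≤ G ^ 2 := one_le_pow₀ hG
  have hτ2 : τ ^ 2 ≤ 1 := pow_le_one₀ hτ.le hτ1
  have h1 := hC G hG
  have h2 := hC (G ^ 2) hG2
  have h3 := hC (G ^ 2 / τ) ((one_le_div₀ hτ).2 (hτ1.trans hG2))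
  have h4 := hC (G ^ 2 / τ ^ 2) ((one_le_div₀ (pow_pos hτ 2)).2 (hτ2.trans hG2))
  rw [Set.ncard_prod, Set.ncard_prod, Set.ncard_prod] at h0
  push_cast at h0
  refine h0.trans ?_
  have hC0 : 0 ≤ C := zero_le_one.trans hC1
  have hG0 : 0 ≤ G := zero_le_one.trans hG
  have h5 := mul_le_mul h3 h4 (Nat.cast_nonneg _) (by positivity)
  have h6 := mul_le_mul h2 h5 (by positivity) (by positivity)
  have h7 := mul_le_mul h1 h6 (by positivity) (by positivity)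
  refine h7.trans (le_of_eq ?_)
  have e : G ^ Module.finrank ℚ K * ((G ^ 2) ^ Module.finrank ℚ K *
      ((G ^ 2 / τ) ^ Module.finrank ℚ K * (G ^ 2 / τ ^ 2) ^ Module.finrank ℚ K)) =
      G ^ (7 * Module.finrank ℚ K) * (1 / τ) ^ (3 * Module.finrank ℚ K) := by
    rw [pow_mul G 7, pow_mul (1 / τ) 3, ← mul_pow, ← mul_pow, ← mul_pow, ← mul_pow]
    congr 1
    field_simp
  rw [← e]
  ring

end H54PP
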