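import Pool.Agent.H54.PP.Be
import Pool.Agent.H54.PP.Bh

/-!
ROW Bi (project MP_78d38b_PP, about 100 lines): the number of pairs `(M', N')`.
Use the STATEMENTS `TgM_finite`, `cnt_TgM` (Be), `cnt_y` (Bh).

PROOF. The set is the union over the finite set `S = {m | TgM τ G m}` of `{m} × {y | Tgt X τ G T m y}`
(`Tgt.tm`). Finite: `Set.Finite.biUnion`/(image of finite sets). Cardinality: `≤ ∑ m ∈ S, ncard {y | Tgt X τ G T m y}` (e.g. with
`Finset.card_eq_sum_card_fiberwise` / `Finset.card_sigma` / `Finset.card_biUnion_le`) `≤ #S * (bound of cnt_y)`. With the constants `C`, `C'` of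
`cnt_TgM`, `cnt_y` the constant is `C * C' * G^(13 n)`.
-/

set_option autoImplicit false
open scoped Classical

open NumberField IsDedekindDomain H76PP

namespace H54PP

variable (K : Type) [Field K] [NumberField K]

theorem cnt_Tgt {G : ℝ} (hG : 1 ≤ G) : ∃ C : ℝ, 0 < C ∧
    ∀ (X τ : ℝ) (T : Finset (HeightOneSpectrum (𝓞 K))), 0 < τ → τ ≤ 1 → 1 ≤ 2 * X * τ ^ 2 →
    (∀ v ∈ T, (6 : 𝓞 K) ∉ v.asIdeal ∧ (G ^ 4) ^ (Module.finrank ℚ K) < (Nv v : ℝ)) →
    (∏ v ∈ T, (Nv v : ℝ)) ^ 2 ≤ (2 * X) ^ (Module.finrank ℚ K) →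
    {p : (Fin 6 → 𝓞 K) × (Fin 6 → 𝓞 K) | Tgt X τ G T p.1 p.2}.Finite ∧
    ({p : (Fin 6 → 𝓞 K) × (Fin 6 → 𝓞 K) | Tgt X τ G T p.1 p.2}.ncard : ℝ) ≤
      C * ((1 / τ) ^ (3 * Module.finrank ℚ K) * (∏ v ∈ T, rho v) *
        X ^ (5 * Module.finrank ℚ K) *
        (1 + (∏ v ∈ T, (Nv v : ℝ)) / (2 * X * τ ^ 2) ^ (Module.finrank ℚ K))) := by
  obtain ⟨C, hC1, hC⟩ := cnt_TgM K
  obtain ⟨C', hC1', hC'⟩ := cnt_y K
  have hG0 : 0 < G := by linarith
  refine ⟨C' * C * G ^ (13 * Module.finrank ℚ K), by positivity, ?_⟩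
  intro X τ T hτ hτ1 hX hT hQ
  have hX0 : 0 < X := by
    by_contra h
    push Not at h
    have h1 : 2 * X * τ ^ 2 ≤ 0 :=
      mul_nonpos_of_nonpos_of_nonneg (by linarith) (by positivity)
    linarith
  have hy := fun m (hm : TgM τ G m) => hC' X τ G T m hτ hτ1 hG hX hT hQ hm
  have hS := TgM_finite K τ G
  have hfin : {p : (Fin 6 → 𝓞 K) × (Fin 6 → 𝓞 K) | Tgt X τ G T p.1 p.2}.Finite := by
    have h1 : (⋃ m ∈ {m : Fin 6 → 𝓞 K | TgM τ G m},
        (fun y : Fin 6 → 𝓞 K => (m, y)) '' {y | Tgt X τ G T m y}).Finite :=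
      hS.biUnion fun m hm => (hy m hm).1.image _
    refine h1.subset ?_
    rintro ⟨m, y⟩ h
    have h2 : Tgt X τ G T m y := h
    exact Set.mem_biUnion (show m ∈ {m : Fin 6 → 𝓞 K | TgM τ G m} from h2.tm) ⟨y, h2, rfl⟩
  refine ⟨hfin, ?_⟩
  have hρ : 0 ≤ ∏ v ∈ T, rho v := Finset.prod_nonneg fun v _ => by
    unfold rho
    positivity
  have hN : 0 ≤ ∏ v ∈ T, (Nv v : ℝ) := Finset.prod_nonneg fun v _ => Nat.cast_nonneg _
  obtain ⟨W, hW⟩ : ∃ W : ℝ, W = 1 + (∏ v ∈ T, (Nv v : ℝ)) /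
    (2 * X * τ ^ 2) ^ (Module.finrank ℚ K) := ⟨_, rfl⟩
  have hW0 : 0 ≤ W := by
    rw [hW]
    positivity
  rw [← hW] at hy ⊢
  obtain ⟨R, hR⟩ : ∃ R : ℝ, R = ∏ v ∈ T, rho v := ⟨_, rfl⟩
  rw [← hR] at hρ hy ⊢
  obtain ⟨b, hb⟩ : ∃ b : ℝ, b = C' * (G ^ (6 * Module.finrank ℚ K) * R *
    X ^ (5 * Module.finrank ℚ K) * W) := ⟨_, rfl⟩
  rw [← hb] at hy
  have hb0 : 0 ≤ b := by
    rw [hb]
    positivity
  have h1 : hfin.toFinset.card ≤ ⌊b⌋₊ * (hfin.toFinset.image Prod.fst).card := by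
    apply Finset.card_le_mul_card_image
    intro m hm
    obtain ⟨p, hp, hpm⟩ := Finset.mem_image.1 hm
    have hp' : Tgt X τ G T p.1 p.2 := (Set.Finite.mem_toFinset hfin).1 hp
    rw [hpm] at hp'
    apply Nat.le_floor
    refine le_trans ?_ (hy m hp'.tm).2
    rw [Set.ncard_eq_toFinset_card _ (hy m hp'.tm).1]
    have h2 : (hfin.toFinset.filter (fun x => x.1 = m)).card ≤ (hy m hp'.tm).1.toFinset.card := by
      refine Finset.card_le_card_of_injOn Prod.snd ?_ ?_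
      · intro q hq
        rw [Finset.mem_coe, Finset.mem_filter, Set.Finite.mem_toFinset] at hq
        rw [Finset.mem_coe, Set.Finite.mem_toFinset]
        have h3 : Tgt X τ G T q.1 q.2 := hq.1
        rw [hq.2] at h3
        exact h3
      · intro q hq q' hq' h
        rw [Finset.mem_coe, Finset.mem_filter] at hq hq'
        exact Prod.ext (hq.2.trans hq'.2.symm) h
    exact_mod_cast h2
  have h2 : (hfin.toFinset.image Prod.fst).card ≤ {m : Fin 6 → 𝓞 K | TgM τ G m}.ncard := by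
    rw [Set.ncard_eq_toFinset_card _ hS]
    apply Finset.card_le_card
    intro m hm
    obtain ⟨p, hp, hpm⟩ := Finset.mem_image.1 hm
    have hp' : Tgt X τ G T p.1 p.2 := (Set.Finite.mem_toFinset hfin).1 hp
    rw [hpm] at hp'
    exact (Set.Finite.mem_toFinset hS).2 hp'.tm
  rw [Set.ncard_eq_toFinset_card _ hfin]
  calc ((hfin.toFinset.card : ℕ) : ℝ)
      ≤ ((⌊b⌋₊ * (hfin.toFinset.image Prod.fst).card : ℕ) : ℝ) := by exact_mod_cast h1
    _ = (⌊b⌋₊ : ℝ) * ((hfin.toFinset.image Prod.fst).card : ℝ) := by push_cast; ring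
    _ ≤ b * (C * (G ^ (7 * Module.finrank ℚ K) * (1 / τ) ^ (3 * Module.finrank ℚ K))) := by
        refine mul_le_mul (Nat.floor_le hb0) ?_ (Nat.cast_nonneg _) hb0
        refine le_trans ?_ (hC τ G hτ hτ1 hG)
        exact_mod_cast h2
    _ = _ := by
        rw [hb]
        have h3 : G ^ (13 * Module.finrank ℚ K) =
            G ^ (6 * Module.finrank ℚ K) * G ^ (7 * Module.finrank ℚ K) := by
          rw [← pow_add]
          congr 1
          ring
        rw [h3]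
        ring

end H54PP
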