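import Pool.Agent.H54.PP.Bc
import Pool.Agent.H54.PP.Bd
import Pool.Agent.H54.PP.Bi

/-!
ROW Bj (project MP_78d38b_PP, about 150 lines): the number of bad pairs with `l 0 ∈ (τ/2, τ]`.
Use the STATEMENTS `to_tgt` (Bc), `same_pair`, `same_P` (Bd), `cnt_Tgt` (Bi), `c5_pos`, `c5_le` (Ba), `bx_lower`, `bx_finite` (Lb).

PROOF. `n = finrank ℚ K`, `G = 3 C₂ + 1 ≥ 1`, `c` from `bx_lower`, `C` from `cnt_Tgt`, the constant is `C / c^3`.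
`S = Bd K X C₂ T (fun x => x < c5 C₂ ∧ τ / 2 < x ∧ x ≤ τ)`, finite (`Bx K X = bx K (X^2) ×ˢ bx K (X^3)` is finite).
`choose` for `p ∈ S` the data `l p, M p, N p`. The map
`(p, a, b, c) ↦ (en ((pm a b c)ᵀ * M p * pm a b c), en ((pm a b c)ᵀ * N p * pm a b c))` maps
`S ×ˢ (bx K (1/τ) ×ˢ (bx K (1/τ) ×ˢ bx K (1/τ^2)))` into the set of `cnt_Tgt` (`to_tgt`) and is injective on it: `same_pair` gives `p = p'`,
then `same_P`. So (`Set.ncard_le_ncard_of_injOn`, `Set.ncard_prod`)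
`#S * (#bx(1/τ) * (#bx(1/τ) * #bx(1/τ^2))) ≤ C (1/τ)^(3n) * W`, `W = (∏ rho v) X^(5n) (1 + ∏ Nv / (2Xτ²)^n) ≥ 0`, and by `bx_lower`
`#bx(1/τ) ≥ c (1/τ)^n`, `#bx(1/τ^2) ≥ c (1/τ^2)^n = c (1/τ)^(2n)`. So `#S c^3 (1/τ)^(4n) ≤ C (1/τ)^(3n) W`, `#S ≤ (C/c^3) τ^n W`.
-/

set_option autoImplicit false
open scoped Classical

open NumberField IsDedekindDomain H76PP
open scoped Matrix

namespace H54PP

variable (K : Type) [Field K] [NumberField K]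

theorem Bj_card {α β γ : Type*} {S : Set α} {b1 b2 : Set β} {F : Set γ} (hF : F.Finite)
    (f : α × (β × (β × β)) → γ) (hm : ∀ p ∈ S ×ˢ (b1 ×ˢ (b1 ×ˢ b2)), f p ∈ F)
    (hi : Set.InjOn f (S ×ˢ (b1 ×ˢ (b1 ×ˢ b2)))) :
    S.ncard * (b1.ncard * (b1.ncard * b2.ncard)) ≤ F.ncard := by
  have h := Set.ncard_le_ncard_of_injOn f hm hi hF
  rwa [Set.ncard_prod, Set.ncard_prod, Set.ncard_prod] at h

theorem Bj_real {s b1 b2 c t C W : ℝ} {n : ℕ} (hc : 0 < c) (ht : 0 < t) (hs : 0 ≤ s)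
    (h1 : c * (1 / t) ^ n ≤ b1) (h2 : c * (1 / t ^ 2) ^ n ≤ b2)
    (h : s * (b1 * (b1 * b2)) ≤ C * ((1 / t) ^ (3 * n) * W)) :
    s ≤ C / c ^ 3 * (t ^ n * W) := by
  obtain ⟨u, hu⟩ : ∃ u : ℝ, u = t ^ n := ⟨_, rfl⟩
  have hu0 : 0 < u := by rw [hu]; positivity
  have e1 : (1 / t) ^ n = 1 / u := by rw [hu, div_pow, one_pow]
  have e2 : (1 / t ^ 2) ^ n = 1 / u ^ 2 := by
    rw [hu, div_pow, one_pow, ← pow_mul, ← pow_mul, Nat.mul_comm]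
  have e3 : (1 / t) ^ (3 * n) = 1 / u ^ 3 := by
    rw [hu, div_pow, one_pow, ← pow_mul, Nat.mul_comm]
  rw [e1] at h1
  rw [e2] at h2
  rw [e3] at h
  have p1 : 0 ≤ c * (1 / u) := by positivity
  have p2 : 0 ≤ c * (1 / u ^ 2) := by positivity
  have q1 : 0 ≤ b1 := p1.trans h1
  have q2 : 0 ≤ b2 := p2.trans h2
  have k1 : c * (1 / u) * (c * (1 / u ^ 2)) ≤ b1 * b2 := mul_le_mul h1 h2 p2 q1
  have k2 : c * (1 / u) * (c * (1 / u) * (c * (1 / u ^ 2))) ≤ b1 * (b1 * b2) :=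
    mul_le_mul h1 k1 (mul_nonneg p1 p2) q1
  have k3 : s * (c * (1 / u) * (c * (1 / u) * (c * (1 / u ^ 2)))) ≤ C * (1 / u ^ 3 * W) :=
    (mul_le_mul_of_nonneg_left k2 hs).trans h
  have k4 := mul_le_mul_of_nonneg_right k3 (show 0 ≤ u ^ 4 / c ^ 3 by positivity)
  have k5 : s * (c * (1 / u) * (c * (1 / u) * (c * (1 / u ^ 2)))) * (u ^ 4 / c ^ 3) = s := by
    field_simp
  have k6 : C * (1 / u ^ 3 * W) * (u ^ 4 / c ^ 3) = C / c ^ 3 * (u * W) := by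
    field_simp
  rw [k5, k6] at k4
  rw [← hu]
  exact k4


theorem Bd_finite (X C₂ : ℝ) (T : Finset (HeightOneSpectrum (𝓞 K))) (L : ℝ → Prop) :
    (Bd K X C₂ T L).Finite := by
  have h : (Bx K X).Finite := by
    have h1 : Bx K X = bx K (X ^ 2) ×ˢ bx K (X ^ 3) := by
      ext p
      exact Iff.rfl
    rw [h1]
    exact (bx_finite K _).prod (bx_finite K _)
  exact h.subset fun p hp => hp.1

theorem cnt_Bd {C₂ : ℝ} (hC : 1 ≤ C₂) : ∃ C : ℝ, 0 < C ∧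
    ∀ (X τ : ℝ) (T : Finset (HeightOneSpectrum (𝓞 K))), 0 < τ → τ ≤ c5 C₂ → 1 ≤ 2 * X * τ ^ 2 →
    (∀ v ∈ T, (6 : 𝓞 K) ∉ v.asIdeal ∧
      ((3 * C₂ + 1) ^ 4) ^ (Module.finrank ℚ K) < (Nv v : ℝ)) →
    (∏ v ∈ T, (Nv v : ℝ)) ^ 2 ≤ (2 * X) ^ (Module.finrank ℚ K) →
    ((Bd K X C₂ T (fun x => x < c5 C₂ ∧ τ / 2 < x ∧ x ≤ τ)).ncard : ℝ) ≤
      C * ((∏ v ∈ T, rho v) * X ^ (5 * Module.finrank ℚ K) *
        (τ ^ (Module.finrank ℚ K) *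
        (1 + (∏ v ∈ T, (Nv v : ℝ)) / (2 * X * τ ^ 2) ^ (Module.finrank ℚ K)))) := by
  have hG : 1 ≤ 3 * C₂ + 1 := by linarith
  obtain ⟨C, hC0, hCt⟩ := cnt_Tgt K hG
  obtain ⟨c, hc0, hc⟩ := bx_lower K
  refine ⟨C / c ^ 3, by positivity, ?_⟩
  intro X τ T hτ0 hτ h1 hT hW
  have hτ1 : τ ≤ 1 := by
    have := c5_le hC
    linarith
  obtain ⟨hF, hcard⟩ := hCt X τ T hτ0 hτ1 h1 hT hW
  have hdat : ∀ p : 𝓞 K × 𝓞 K, ∃ D : (Fin 3 → ℝ) × (Matrix (Fin 3) (Fin 3) (𝓞 K) ×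
      Matrix (Fin 3) (Fin 3) (𝓞 K)), p ∈ Bd K X C₂ T (fun x => x < c5 C₂ ∧ τ / 2 < x ∧ x ≤ τ) →
      Dat X C₂ T p.1 p.2 D.1 D.2.1 D.2.2 ∧ (D.1 0 < c5 C₂ ∧ τ / 2 < D.1 0 ∧ D.1 0 ≤ τ) := by
    intro p
    by_cases hp : p ∈ Bd K X C₂ T (fun x => x < c5 C₂ ∧ τ / 2 < x ∧ x ≤ τ)
    · obtain ⟨-, l, M, N, h, hl⟩ := id hp
      exact ⟨(l, (M, N)), fun _ => ⟨h, hl⟩⟩
    · exact ⟨(0, (0, 0)), fun h => absurd h hp⟩
  choose D hD using hdat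
  have key := Bj_card (S := Bd K X C₂ T (fun x => x < c5 C₂ ∧ τ / 2 < x ∧ x ≤ τ))
    (b1 := bx K (1 / τ)) (b2 := bx K (1 / τ ^ 2)) hF
    (fun q => (en ((pm q.2.1 q.2.2.1 q.2.2.2)ᵀ * (D q.1).2.1 * pm q.2.1 q.2.2.1 q.2.2.2),
      en ((pm q.2.1 q.2.2.1 q.2.2.2)ᵀ * (D q.1).2.2 * pm q.2.1 q.2.2.1 q.2.2.2)))
    (by
      rintro ⟨p, a, b, c⟩ ⟨hp, ha, hb, hc⟩
      obtain ⟨h, hl1, hl2, hl3⟩ := hD p hp
      exact to_tgt hC hτ h hl1 hl2 hl3 ha hb hc)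
    (by
      rintro ⟨p, a, b, c⟩ ⟨hp, ha, hb, hc⟩ ⟨p', a', b', c'⟩ ⟨hp', ha', hb', hc'⟩ he
      obtain ⟨h, -⟩ := hD p hp
      obtain ⟨h', -⟩ := hD p' hp'
      obtain ⟨e1, e2⟩ := Prod.mk.inj he
      obtain ⟨i1, i2⟩ := same_pair h h' e1 e2
      have i3 : p = p' := Prod.ext i1 i2
      subst i3
      obtain ⟨j1, j2, j3⟩ := same_P h e1 e2
      exact Prod.ext rfl (Prod.ext j1 (Prod.ext j2 j3)))
  have key2 : ((Bd K X C₂ T (fun x => x < c5 C₂ ∧ τ / 2 < x ∧ x ≤ τ)).ncard : ℝ) *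
      (((bx K (1 / τ)).ncard : ℝ) * (((bx K (1 / τ)).ncard : ℝ) *
      ((bx K (1 / τ ^ 2)).ncard : ℝ))) ≤
      ({p : (Fin 6 → 𝓞 K) × (Fin 6 → 𝓞 K) | Tgt X τ (3 * C₂ + 1) T p.1 p.2}.ncard : ℝ) := by
    exact_mod_cast key
  have key3 := key2.trans hcard
  have e : C * ((1 / τ) ^ (3 * Module.finrank ℚ K) * (∏ v ∈ T, rho v) *
        X ^ (5 * Module.finrank ℚ K) *
        (1 + (∏ v ∈ T, (Nv v : ℝ)) / (2 * X * τ ^ 2) ^ (Module.finrank ℚ K))) =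
      C * ((1 / τ) ^ (3 * Module.finrank ℚ K) * ((∏ v ∈ T, rho v) *
        X ^ (5 * Module.finrank ℚ K) *
        (1 + (∏ v ∈ T, (Nv v : ℝ)) / (2 * X * τ ^ 2) ^ (Module.finrank ℚ K)))) := by ring
  rw [e] at key3
  have fin := Bj_real hc0 hτ0 (Nat.cast_nonneg _) (hc (1 / τ) (by positivity))
    (hc (1 / τ ^ 2) (by positivity)) key3
  refine fin.trans (le_of_eq ?_)
  ring

end H54PP
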