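import Mathlib

/-!
ROW Bk (project MP_78d38b_PP, about 130 lines, Mathlib only): a dyadic sum.
-/

set_option autoImplicit false
open scoped Classical

namespace H54PP

theorem Bk_geom (n : ℕ) : ∑ j ∈ Finset.range n, (1 / 2 : ℝ) ^ j = 2 - 2 * (1 / 2 : ℝ) ^ n := by
  induction n with
  | zero => simp
  | succ n ih =>
    rw [Finset.sum_range_succ, ih, pow_succ]
    ring

theorem Bk_geom_le (n : ℕ) : ∑ j ∈ Finset.range n, (1 / 2 : ℝ) ^ j ≤ 2 := by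
  rw [Bk_geom]
  have : (0 : ℝ) ≤ (1 / 2 : ℝ) ^ n := by positivity
  linarith

theorem Bk_term {n : ℕ} (hn : 1 ≤ n) {c X Q : ℝ} (hc : 0 < c) (hc1 : c ≤ 1 / 4) (hQ : 0 ≤ Q)
    (hQX : Q ^ 2 ≤ (2 * X) ^ n) {J : ℕ} (hJ : 1 ≤ 2 * X * (c / 2 ^ J) ^ 2) {j : ℕ} (hj : j ≤ J) :
    (c / 2 ^ j) ^ n * (1 + Q / (2 * X * (c / 2 ^ j) ^ 2) ^ n) ≤
      1 / 4 * (1 / 2 : ℝ) ^ j + (1 / 2 : ℝ) ^ (J - j) := by
  have hX : 0 < 2 * X := by
    by_contra h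
    have h1 : 2 * X * (c / 2 ^ J) ^ 2 ≤ 0 := mul_nonpos_of_nonpos_of_nonneg (not_lt.1 h) (by positivity)
    linarith
  obtain ⟨r, hr⟩ : ∃ r : ℝ, r = Real.sqrt (2 * X) := ⟨_, rfl⟩
  have hr0 : 0 < r := by rw [hr]; exact Real.sqrt_pos.2 hX
  have hr2 : r ^ 2 = 2 * X := by rw [hr]; exact Real.sq_sqrt hX.le
  have hQr : Q ≤ r ^ n := by
    have h1 : Q ^ 2 ≤ (r ^ n) ^ 2 := by
      rw [← pow_mul, mul_comm n 2, pow_mul, hr2]
      exact hQX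
    exact (pow_le_pow_iff_left₀ hQ (by positivity) two_ne_zero).1 h1
  set τ : ℝ := c / 2 ^ j with hτ
  have hτ0 : 0 < τ := by positivity
  have h2j : (1 : ℝ) ≤ 2 ^ j := one_le_pow₀ (by norm_num)
  have hτc : τ = c * (1 / 2 : ℝ) ^ j := by
    rw [hτ, one_div, inv_pow]
    rfl
  have hτ1 : τ ≤ 1 := (div_le_self hc.le h2j).trans (by linarith)
  have hy : 1 ≤ r * (c / 2 ^ J) := by
    have h1 : (1 : ℝ) ^ 2 ≤ (r * (c / 2 ^ J)) ^ 2 := by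
      rw [mul_pow, hr2, one_pow]
      exact hJ
    exact (pow_le_pow_iff_left₀ zero_le_one (by positivity) two_ne_zero).1 h1
  have hyj : 2 ^ (J - j) ≤ r * τ := by
    have h1 : r * τ = 2 ^ (J - j) * (r * (c / 2 ^ J)) := by
      have h2 : (2 : ℝ) ^ J = 2 ^ (J - j) * 2 ^ j := by
        rw [← pow_add]
        congr 1
        omega
      rw [hτ, h2]
      field_simp
    rw [h1]
    exact le_mul_of_one_le_right (by positivity) hy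
  have hy1 : 1 ≤ r * τ := (one_le_pow₀ (by norm_num : (1 : ℝ) ≤ 2)).trans hyj
  have h1 : τ ^ n ≤ 1 / 4 * (1 / 2 : ℝ) ^ j := by
    have h2 : τ ^ n ≤ τ ^ 1 := pow_le_pow_of_le_one hτ0.le hτ1 hn
    rw [pow_one] at h2
    refine h2.trans ?_
    rw [hτc]
    exact mul_le_mul_of_nonneg_right hc1 (by positivity)
  have h3 : τ ^ n * (Q / (2 * X * τ ^ 2) ^ n) ≤ (1 / 2 : ℝ) ^ (J - j) := by
    have e1 : (2 * X * τ ^ 2) ^ n = ((r * τ) ^ n) ^ 2 := by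
      rw [← hr2]
      ring
    rw [e1]
    have e2 : τ ^ n * (Q / ((r * τ) ^ n) ^ 2) ≤ τ ^ n * (r ^ n / ((r * τ) ^ n) ^ 2) := by
      gcongr
    have e3 : τ ^ n * (r ^ n / ((r * τ) ^ n) ^ 2) = 1 / (r * τ) ^ n := by
      have : (r * τ) ^ n ≠ 0 := by positivity
      rw [mul_div_assoc', ← mul_pow, mul_comm τ r]
      field_simp
    have e4 : 1 / (r * τ) ^ n ≤ 1 / (r * τ) := by
      refine one_div_le_one_div_of_le (by positivity) ?_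
      exact le_self_pow₀ hy1 (by omega)
    have e5 : 1 / (r * τ) ≤ 1 / 2 ^ (J - j) := one_div_le_one_div_of_le (by positivity) hyj
    have e6 : (1 : ℝ) / 2 ^ (J - j) = (1 / 2 : ℝ) ^ (J - j) := by rw [one_div_pow]
    rw [← e6]
    exact e2.trans (e3.le.trans (e4.trans e5))
  calc τ ^ n * (1 + Q / (2 * X * τ ^ 2) ^ n) = τ ^ n + τ ^ n * (Q / (2 * X * τ ^ 2) ^ n) := by ring
    _ ≤ _ := add_le_add h1 h3

theorem dyadic {n : ℕ} (hn : 1 ≤ n) {c X Q : ℝ} (hc : 0 < c) (hc1 : c ≤ 1 / 4) (hQ : 0 ≤ Q)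
    (hQX : Q ^ 2 ≤ (2 * X) ^ n) {J : ℕ} (hJ : 1 ≤ 2 * X * (c / 2 ^ J) ^ 2) :
    ∑ j ∈ Finset.range (J + 1),
      (c / 2 ^ j) ^ n * (1 + Q / (2 * X * (c / 2 ^ j) ^ 2) ^ n) ≤ 3 := by
  calc ∑ j ∈ Finset.range (J + 1),
      (c / 2 ^ j) ^ n * (1 + Q / (2 * X * (c / 2 ^ j) ^ 2) ^ n)
      ≤ ∑ j ∈ Finset.range (J + 1), (1 / 4 * (1 / 2 : ℝ) ^ j + (1 / 2 : ℝ) ^ (J - j)) :=
        Finset.sum_le_sum fun j hj =>
          Bk_term hn hc hc1 hQ hQX hJ (Nat.lt_succ_iff.1 (Finset.mem_range.1 hj))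
    _ = 1 / 4 * ∑ j ∈ Finset.range (J + 1), (1 / 2 : ℝ) ^ j +
        ∑ j ∈ Finset.range (J + 1), (1 / 2 : ℝ) ^ (J - j) := by
        rw [Finset.sum_add_distrib, Finset.mul_sum]
    _ = 1 / 4 * ∑ j ∈ Finset.range (J + 1), (1 / 2 : ℝ) ^ j +
        ∑ j ∈ Finset.range (J + 1), (1 / 2 : ℝ) ^ j := by
        congr 1
        have := Finset.sum_range_reflect (fun j => (1 / 2 : ℝ) ^ j) (J + 1)
        rw [← this]
        refine Finset.sum_congr rfl fun j _ => ?_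
        congr 1
    _ ≤ 3 := by
        have := Bk_geom_le (J + 1)
        linarith

theorem exists_dyadic {c x : ℝ} (hc : 0 < c) (hx : 0 < x) (hxc : x < c) :
    ∃ j : ℕ, (c / 2 ^ j) / 2 < x ∧ x ≤ c / 2 ^ j := by
  have hex : ∃ j : ℕ, (c / 2 ^ j) / 2 < x := by
    obtain ⟨j, hj⟩ := pow_unbounded_of_one_lt (c / x) (by norm_num : (1 : ℝ) < 2)
    refine ⟨j, ?_⟩
    have h1 : c / 2 ^ j < x := by
      rw [div_lt_iff₀ (by positivity)]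
      rw [div_lt_iff₀ hx] at hj
      linarith
    have h2 : 0 < c / 2 ^ j := by positivity
    linarith
  refine ⟨Nat.find hex, Nat.find_spec hex, ?_⟩
  rcases Nat.eq_zero_or_pos (Nat.find hex) with h | h
  · rw [h, pow_zero, div_one]
    exact hxc.le
  · obtain ⟨k, hk⟩ : ∃ k, Nat.find hex = k + 1 := ⟨Nat.find hex - 1, by omega⟩
    have h1 := Nat.find_min hex (m := k) (by omega)
    rw [hk, pow_succ, ← div_div]
    exact not_lt.1 h1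

theorem exists_last {c X : ℝ} (hc : 0 < c) (h0 : 1 ≤ 2 * X * c ^ 2) :
    ∃ J : ℕ, 1 ≤ 2 * X * (c / 2 ^ J) ^ 2 ∧ ∀ j : ℕ, 1 ≤ 2 * X * (c / 2 ^ j) ^ 2 → j ≤ J := by
  obtain ⟨N, hN⟩ := pow_unbounded_of_one_lt (2 * X * c ^ 2) (by norm_num : (1 : ℝ) < 4)
  have hb : ∀ j : ℕ, 1 ≤ 2 * X * (c / 2 ^ j) ^ 2 → j ≤ N := by
    intro j hj
    have h1 : 2 * X * (c / 2 ^ j) ^ 2 = 2 * X * c ^ 2 / 4 ^ j := by
      have : (4 : ℝ) ^ j = (2 ^ j) ^ 2 := by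
        rw [← pow_mul, mul_comm, pow_mul]
        norm_num
      rw [this, div_pow, mul_div_assoc]
    rw [h1, le_div_iff₀ (by positivity), one_mul] at hj
    have h2 : (4 : ℝ) ^ j < 4 ^ N := hj.trans_lt hN
    exact ((pow_lt_pow_iff_right₀ (by norm_num : (1 : ℝ) < 4)).1 h2).le
  refine ⟨Nat.findGreatest (fun j => 1 ≤ 2 * X * (c / 2 ^ j) ^ 2) N, ?_, ?_⟩
  · exact Nat.findGreatest_spec (P := fun j => 1 ≤ 2 * X * (c / 2 ^ j) ^ 2) (Nat.zero_le N)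
      (by simpa using h0)
  · intro j hj
    exact Nat.le_findGreatest (hb j hj) hj

end H54PP
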