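import Pool.Agent.H54.PP.Bj
import Pool.Agent.H54.PP.Bk

/-!
ROW Bl (project MP_78d38b_PP, about 130 lines): case II, all bad pairs with small `l 0`.
Use the STATEMENTS `shape`, `c5_pos`, `c5_le` (Ba), `Bd_finite`, `cnt_Bd` (Bj), `dyadic`, `exists_dyadic`, `exists_last` (Bk).

PROOF. `n = finrank ℚ K`, `C` from `cnt_Bd`; the constant is `3 C`. `N₀ = ⌈((3 C₂ + 1)^4)^n⌉₊ + 1`. For `T` put `Q = ∏ v ∈ T, Nv v ≥ 1` and
`X₀ = Q^2 + 1`: for `X ≥ X₀`: `2 X ≥ 1`, `(2X)^n ≥ 2X ≥ Q^2`. `c = c5 C₂`.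
If `2 X c^2 < 1` the set is empty: for data with `l 0 < c` `shape` gives `1 ≤ 2 X (l 0)^2 ≤ 2 X c^2`. Otherwise `J` from `exists_last`. For `p` in the set:
data with `l 0 < c`, `j` from `exists_dyadic`, `1 ≤ 2 X (l 0)^2 ≤ 2 X (c/2^j)^2`, so `j ≤ J` and
`p ∈ Bd K X C₂ T (fun x => x < c ∧ τ/2 < x ∧ x ≤ τ)`, `τ = c/2^j`. So the set is contained in the union over `j ∈ range (J+1)` of these sets,
its `ncard` is at most the sum of theirs (`Set.ncard_le_ncard`, finite; `Finset.set_ncard_biUnion_le` or induction), each is at most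
`C * (W * (τ^n (1 + Q/(2Xτ²)^n)))` (`cnt_Bd`; `1 ≤ 2 X τ^2` since `j ≤ J`), `W = (∏ rho v) X^(5n) ≥ 0`, and the sum is `≤ C W 3` by `dyadic`.
-/

set_option autoImplicit false
open scoped Classical

open NumberField IsDedekindDomain H76PP

namespace H54PP

variable (K : Type) [Field K] [NumberField K]

theorem Bl_rho {K : Type} [Field K] [NumberField K] (T : Finset (HeightOneSpectrum (𝓞 K))) :
    0 ≤ ∏ v ∈ T, rho v := by
  refine Finset.prod_nonneg fun v _ => ?_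
  unfold rho
  positivity

theorem Bl_mono {c X : ℝ} (hc : 0 < c) (hX : 0 ≤ X) {j J : ℕ} (h : j ≤ J)
    (hJ : 1 ≤ 2 * X * (c / 2 ^ J) ^ 2) : 1 ≤ 2 * X * (c / 2 ^ j) ^ 2 := by
  refine hJ.trans (mul_le_mul_of_nonneg_left ?_ (by linarith))
  refine pow_le_pow_left₀ (by positivity) ?_ 2
  exact div_le_div_of_nonneg_left hc.le (by positivity) (pow_le_pow_right₀ (by norm_num) h)

theorem case_two {C₂ : ℝ} (hC : 1 ≤ C₂) : ∃ (C : ℝ) (N₀ : ℕ), 0 < C ∧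
    ∀ T : Finset (HeightOneSpectrum (𝓞 K)),
      (∀ v ∈ T, N₀ ≤ Nv v ∧ (6 : 𝓞 K) ∉ v.asIdeal) → ∃ X₀ : ℝ, ∀ X : ℝ, X₀ ≤ X →
        ((Bd K X C₂ T (fun x => x < c5 C₂)).ncard : ℝ) ≤
          C * (∏ v ∈ T, rho v) * X ^ (5 * Module.finrank ℚ K) := by
  obtain ⟨C, hC0, hcnt⟩ := cnt_Bd K hC
  obtain ⟨n, hn⟩ : ∃ n : ℕ, n = Module.finrank ℚ K := ⟨_, rfl⟩
  rw [← hn] at hcnt ⊢
  have hn1 : 1 ≤ n := by
    rw [hn]
    exact Module.finrank_pos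
  refine ⟨3 * C, ⌈((3 * C₂ + 1) ^ 4) ^ n⌉₊ + 1, by positivity, ?_⟩
  intro T hT
  obtain ⟨Q, hQd⟩ : ∃ Q : ℝ, Q = ∏ v ∈ T, (Nv v : ℝ) := ⟨_, rfl⟩
  have hQ0 : 0 ≤ Q := by
    rw [hQd]
    exact Finset.prod_nonneg fun v _ => Nat.cast_nonneg _
  have hT' : ∀ v ∈ T, (6 : 𝓞 K) ∉ v.asIdeal ∧ ((3 * C₂ + 1) ^ 4) ^ n < (Nv v : ℝ) := by
    intro v hv
    obtain ⟨h1, h2⟩ := hT v hv
    refine ⟨h2, ?_⟩
    have h3 : ((⌈((3 * C₂ + 1) ^ 4) ^ n⌉₊ + 1 : ℕ) : ℝ) ≤ (Nv v : ℝ) := by exact_mod_cast h1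
    have h4 := Nat.le_ceil (((3 * C₂ + 1) ^ 4) ^ n)
    push_cast at h3
    linarith
  refine ⟨Q ^ 2 + 1, fun X hX => ?_⟩
  have hX1 : 1 ≤ X := by
    have : 0 ≤ Q ^ 2 := by positivity
    linarith
  have hQX : Q ^ 2 ≤ (2 * X) ^ n := by
    calc Q ^ 2 ≤ 2 * X := by linarith
      _ ≤ (2 * X) ^ n := le_self_pow₀ (by linarith) (by omega)
  have hc0 := c5_pos hC
  have hc1 := c5_le hC
  have hcnt' := fun τ => hcnt X τ T
  obtain ⟨c, hcd⟩ : ∃ c : ℝ, c = c5 C₂ := ⟨_, rfl⟩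
  rw [← hcd] at hc0 hc1 hcnt' ⊢
  have hW : 0 ≤ (∏ v ∈ T, rho v) * X ^ (5 * n) := mul_nonneg (Bl_rho T) (by positivity)
  by_cases h0 : 1 ≤ 2 * X * c ^ 2
  · obtain ⟨J, hJ, hJ'⟩ := exists_last hc0 h0
    have hsub : Bd K X C₂ T (fun x => x < c) ⊆ ⋃ j ∈ Finset.range (J + 1),
        Bd K X C₂ T (fun x => x < c ∧ c / 2 ^ j / 2 < x ∧ x ≤ c / 2 ^ j) := by
      rintro p ⟨hp, l, M, N, hD, hl⟩
      obtain ⟨j, hj1, hj2⟩ := exists_dyadic hc0 hD.pos hl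
      have hbig := (shape hC hD (by rw [← hcd]; exact hl)).big
      have hj : j ≤ J := by
        refine hJ' j (hbig.trans (mul_le_mul_of_nonneg_left ?_ (by linarith)))
        rw [pow_two]
        exact mul_le_mul hj2 hj2 hD.pos.le (by positivity)
      simp only [Set.mem_iUnion]
      exact ⟨j, Finset.mem_range.2 (Nat.lt_succ_of_le hj), hp, l, M, N, hD, hl, hj1, hj2⟩
    have hfin : (⋃ j ∈ Finset.range (J + 1),
        Bd K X C₂ T (fun x => x < c ∧ c / 2 ^ j / 2 < x ∧ x ≤ c / 2 ^ j)).Finite :=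
      Set.Finite.biUnion (Finset.finite_toSet _) fun j _ => Bd_finite K X C₂ T _
    have h1 := (Set.ncard_le_ncard hsub hfin).trans (Finset.set_ncard_biUnion_le _ _)
    have h2 : ((Bd K X C₂ T (fun x => x < c)).ncard : ℝ) ≤ ∑ j ∈ Finset.range (J + 1),
        ((Bd K X C₂ T (fun x => x < c ∧ c / 2 ^ j / 2 < x ∧ x ≤ c / 2 ^ j)).ncard : ℝ) := by
      exact_mod_cast h1
    refine h2.trans ?_
    have h3 : ∀ j ∈ Finset.range (J + 1),
        ((Bd K X C₂ T (fun x => x < c ∧ c / 2 ^ j / 2 < x ∧ x ≤ c / 2 ^ j)).ncard : ℝ) ≤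
        C * ((∏ v ∈ T, rho v) * X ^ (5 * n)) * ((c / 2 ^ j) ^ n *
          (1 + Q / (2 * X * (c / 2 ^ j) ^ 2) ^ n)) := by
      intro j hj
      have hj' : j ≤ J := Nat.lt_succ_iff.1 (Finset.mem_range.1 hj)
      have h4 := hcnt' (c / 2 ^ j) (by positivity)
        (div_le_self hc0.le (one_le_pow₀ (by norm_num)))
        (Bl_mono hc0 (by linarith) hj' hJ) hT' (by rw [← hQd]; exact hQX)
      rw [← hQd] at h4
      refine h4.trans (le_of_eq ?_)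
      ring
    refine (Finset.sum_le_sum h3).trans ?_
    rw [← Finset.mul_sum]
    have h5 := dyadic hn1 hc0 hc1 hQ0 hQX hJ
    calc C * ((∏ v ∈ T, rho v) * X ^ (5 * n)) * ∑ j ∈ Finset.range (J + 1),
          (c / 2 ^ j) ^ n * (1 + Q / (2 * X * (c / 2 ^ j) ^ 2) ^ n)
        ≤ C * ((∏ v ∈ T, rho v) * X ^ (5 * n)) * 3 :=
          mul_le_mul_of_nonneg_left h5 (mul_nonneg hC0.le hW)
      _ = 3 * C * (∏ v ∈ T, rho v) * X ^ (5 * n) := by ring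
  · have hempty : Bd K X C₂ T (fun x => x < c) = ∅ := by
      ext p
      refine ⟨?_, fun h => absurd h (Set.notMem_empty p)⟩
      rintro ⟨hp, l, M, N, hD, hl⟩
      exfalso
      apply h0
      have hbig := (shape hC hD (by rw [← hcd]; exact hl)).big
      refine hbig.trans (mul_le_mul_of_nonneg_left ?_ (by linarith))
      rw [pow_two]
      exact mul_le_mul hl.le hl.le hD.pos.le hc0.le
    rw [hempty, Set.ncard_empty, Nat.cast_zero, mul_assoc]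
    exact mul_nonneg (by positivity) hW

end H54PP
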