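import Pool.Agent.H76.PP.Lg

/-!
Definitions for the block N2 (counting of pairs of matrices) of the project MP_78d38b_PP (no row).
-/

set_option autoImplicit false
open scoped Classical

open NumberField IsDedekindDomain H76PP
open scoped Matrix

namespace H54PP

section Sym

variable {R : Type*}

/-- The symmetric matrix with the six given entries. -/
def sy (x : Fin 6 → R) : Matrix (Fin 3) (Fin 3) R :=
  !![x 0, x 1, x 2; x 1, x 3, x 4; x 2, x 4, x 5]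

/-- The six entries of a symmetric matrix. -/
def en (M : Matrix (Fin 3) (Fin 3) R) : Fin 6 → R := ![M 0 0, M 0 1, M 0 2, M 1 1, M 1 2, M 2 2]

/-- The coefficients of the linear form `tr (adj (sy x) * sy y)` in `y`. -/
def cf [CommRing R] (x : Fin 6 → R) : Fin 6 → R :=
  ![x 3 * x 5 - x 4 ^ 2, 2 * (x 2 * x 4 - x 1 * x 5), 2 * (x 1 * x 4 - x 2 * x 3),
    x 0 * x 5 - x 2 ^ 2, 2 * (x 1 * x 2 - x 0 * x 4), x 0 * x 3 - x 1 ^ 2]

/-- A unipotent matrix. -/
def pm [CommRing R] (a b c : R) : Matrix (Fin 3) (Fin 3) R := !![1, a, c; 0, 1, b; 0, 0, 1]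

theorem en_sy (x : Fin 6 → R) : en (sy x) = x := by
  funext i
  fin_cases i <;> rfl

theorem sy_en {M : Matrix (Fin 3) (Fin 3) R} (h : M.IsSymm) : sy (en M) = M := by
  ext i j
  have h1 := h.apply
  fin_cases i <;> fin_cases j <;> first | rfl | exact h1 _ _

theorem sy_symm (x : Fin 6 → R) : (sy x).IsSymm := by
  ext i j
  fin_cases i <;> fin_cases j <;> rfl

theorem pm_det [CommRing R] (a b c : R) : (pm a b c).det = 1 := by
  unfold pm
  rw [Matrix.det_fin_three]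
  simp

end Sym

/-- The value of the constant `c₅` of the note. -/
noncomputable def c5 (C₂ : ℝ) : ℝ := 1 / (2 * (1 + C₂))

/-- The factor at `v`. -/
noncomputable def rho {K : Type} [Field K] [NumberField K] (v : HeightOneSpectrum (𝓞 K)) : ℝ :=
  (1 + 1 / (Nv v : ℝ)) ^ 2 / 4

/-- The bounds for the six entries of `Pᵀ N P`. -/
noncomputable def tt (X τ G : ℝ) : Fin 6 → ℝ :=
  ![2 * X * τ ^ 2, 2 * X * G * τ, 2 * X * G, 2 * X * G ^ 2, 2 * X * G ^ 2 / τ,
    2 * X * G ^ 2 / τ ^ 2]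

section Tgt

variable {K : Type} [Field K] [NumberField K]

/-- The conditions on the entries `m` of `Pᵀ M P`. -/
structure TgM (τ G : ℝ) (m : Fin 6 → 𝓞 K) : Prop where
  m0 : m 0 = 0
  m1 : m 1 = 0
  n2 : m 2 ≠ 0
  n3 : m 3 ≠ 0
  b2 : m 2 ∈ bx K G
  b3 : m 3 ∈ bx K (G ^ 2)
  b4 : m 4 ∈ bx K (G ^ 2 / τ)
  b5 : m 5 ∈ bx K (G ^ 2 / τ ^ 2)

/-- The conditions on the entries `m`, `y` of `Pᵀ M P` and `Pᵀ N P`. -/
structure Tgt (X τ G : ℝ) (T : Finset (HeightOneSpectrum (𝓞 K))) (m y : Fin 6 → 𝓞 K) :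
    Prop where
  tm : TgM τ G m
  tr : ∑ i, cf m i * y i = 0
  bd : ∀ i, y i ∈ bx K (tt X τ G i)
  rs : ∀ v ∈ T, (sy m).det ∉ v.asIdeal → Rs (rd v (sy m)) (rd v (sy y))

end Tgt

section BadSets

variable (K : Type) [Field K] [NumberField K]

/-- The pairs `(A, B)` with data whose `l 0` satisfies `L`. -/
def Bd (X C₂ : ℝ) (T : Finset (HeightOneSpectrum (𝓞 K))) (L : ℝ → Prop) : Set (𝓞 K × 𝓞 K) :=
  {p | p ∈ Bx K X ∧ ∃ (l : Fin 3 → ℝ) (M N : Matrix (Fin 3) (Fin 3) (𝓞 K)),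
    Dat X C₂ T p.1 p.2 l M N ∧ L (l 0)}

end BadSets

end H54PP
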