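import Mathlib

/-!
ROW Fa (project MP_78d38b_PP, about 110 lines, Mathlib only): a conic over a finite field of odd
characteristic has at most `q + 1` points.

PROOF. If there is no solution there is nothing to show. Let `(x₀, y₀)` be a solution. Map every other solution
`(x, y) ≠ (x₀, y₀)` to `none : Option k` if `x = x₀` and to `some ((y - y₀) / (x - x₀))` otherwise.
Injective: write `(x, y) = (x₀ + l u, y₀ + l v)` with `l ≠ 0` and `(u, v) = (0, 1)` or `(u, v) = (1, m)`, `m` the slope.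
Subtracting the equations: `2 l (c x₀ u + d y₀ v) + l^2 (c u^2 + d v^2) = 0`, so
`l (c u^2 + d v^2) = -2 (c x₀ u + d y₀ v)` (*). If `c u^2 + d v^2 ≠ 0` then `l` is determined by `(u, v)`.
If `c u^2 + d v^2 = 0` then `c x₀ u + d y₀ v = 0` (as `2 ≠ 0`), and `(c x₀ u + d y₀ v)^2 + c d (x₀ v - y₀ u)^2 =
(c x₀^2 + d y₀^2) (c u^2 + d v^2)` gives `x₀ v = y₀ u`; with `(u, v) = (0, 1)`: `d = 0`, impossible; with
`(u, v) = (1, m)`: `y₀ = m x₀`, `r = c x₀^2 + d m^2 x₀^2 = x₀^2 (c + d m^2) = 0`, impossible. So (in all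
cases) the case `c u^2 + d v^2 = 0` does not occur and the map is injective.
The tangent direction is not in the image: if `d y₀ ≠ 0` the value `some m` with `m = - c x₀ / (d y₀)`: then
`c x₀ + d y₀ m = 0`, so by (*) `l (c + d m^2) = 0`, `l = 0`, impossible (`c + d m^2 ≠ 0` was just shown for directions in the
image). If `y₀ = 0` (then `x₀ ≠ 0`) the value `none`: `(u, v) = (0, 1)`: (*) is `l d = 0`, impossible.
So the number of other solutions is at most `card (Option k) - 1 = q`.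
(`Finset.card_le_card_of_injOn` into `Finset.univ.erase _ : Finset (Option k)`.)
-/

set_option autoImplicit false
open scoped Classical

namespace H54PP

lemma Fa_key {k : Type} [Field k] {c d r x₀ y₀ u v l : k} (hl : l ≠ 0)
    (h0 : c * x₀ ^ 2 + d * y₀ ^ 2 = r) (h1 : c * (x₀ + l * u) ^ 2 + d * (y₀ + l * v) ^ 2 = r) :
    l * (c * u ^ 2 + d * v ^ 2) = -2 * (c * x₀ * u + d * y₀ * v) := by
  apply mul_left_cancel₀ hl
  linear_combination h1 - h0

lemma Fa_ne {k : Type} [Field k] (h2 : (2 : k) ≠ 0) {c d r x₀ y₀ u v l : k} (hc : c ≠ 0)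
    (hd : d ≠ 0) (hr : r ≠ 0) (hl : l ≠ 0) (huv : u ≠ 0 ∨ v ≠ 0)
    (h0 : c * x₀ ^ 2 + d * y₀ ^ 2 = r) (h1 : c * (x₀ + l * u) ^ 2 + d * (y₀ + l * v) ^ 2 = r) :
    c * u ^ 2 + d * v ^ 2 ≠ 0 := by
  intro h3
  have h4 := Fa_key hl h0 h1
  rw [h3, mul_zero] at h4
  have h5 : c * x₀ * u + d * y₀ * v = 0 := by
    rcases mul_eq_zero.1 h4.symm with h | h
    · exact absurd (neg_eq_zero.1 h) h2
    · exact h
  have h6 : (x₀ * v - y₀ * u) ^ 2 = 0 := by
    apply mul_left_cancel₀ (mul_ne_zero hc hd)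
    linear_combination (c * x₀ ^ 2 + d * y₀ ^ 2) * h3 - (c * x₀ * u + d * y₀ * v) * h5
  have h7 : x₀ * v = y₀ * u := sub_eq_zero.1 (pow_eq_zero_iff (two_ne_zero)|>.1 h6)
  rcases huv with h | h
  · apply mul_ne_zero hr (pow_ne_zero 2 h)
    rw [← h0]
    linear_combination x₀ ^ 2 * h3 - d * (x₀ * v + y₀ * u) * h7
  · apply mul_ne_zero hr (pow_ne_zero 2 h)
    rw [← h0]
    linear_combination y₀ ^ 2 * h3 + c * (x₀ * v + y₀ * u) * h7

theorem conic {k : Type} [Field k] [Fintype k] (h2 : (2 : k) ≠ 0) {c d r : k} (hc : c ≠ 0)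
    (hd : d ≠ 0) (hr : r ≠ 0) :
    (Finset.univ.filter (fun p : k × k => c * p.1 ^ 2 + d * p.2 ^ 2 = r)).card ≤
      Fintype.card k + 1 := by
  obtain ⟨S, hS⟩ : ∃ S : Finset (k × k),
      S = Finset.univ.filter (fun p : k × k => c * p.1 ^ 2 + d * p.2 ^ 2 = r) := ⟨_, rfl⟩
  rw [← hS]
  have hSm : ∀ p, p ∈ S ↔ c * p.1 ^ 2 + d * p.2 ^ 2 = r := by
    intro p
    rw [hS, Finset.mem_filter]
    exact ⟨fun h => h.2, fun h => ⟨Finset.mem_univ _, h⟩⟩
  rcases S.eq_empty_or_nonempty with hE | ⟨⟨x₀, y₀⟩, hp0⟩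
  · rw [hE, Finset.card_empty]
    exact Nat.zero_le _
  have h0 : c * x₀ ^ 2 + d * y₀ ^ 2 = r := (hSm _).1 hp0
  have hcard : S.card = (S.erase (x₀, y₀)).card + 1 := (Finset.card_erase_add_one hp0).symm
  rw [hcard]
  apply Nat.add_le_add_right
  obtain ⟨T, hT⟩ : ∃ T : Option k, T = if y₀ = 0 then none else some (-(c * x₀) / (d * y₀)) :=
    ⟨_, rfl⟩
  have hTc : ((Finset.univ : Finset (Option k)).erase T).card = Fintype.card k := by
    rw [Finset.card_erase_of_mem (Finset.mem_univ _), Finset.card_univ, Fintype.card_option,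
      Nat.add_sub_cancel]
  rw [← hTc]
  -- the vertical direction
  have hv : ∀ y, (x₀, y) ∈ S.erase (x₀, y₀) → y - y₀ ≠ 0 ∧ (y - y₀) * d = -2 * (d * y₀) := by
    intro y hy
    rw [Finset.mem_erase, hSm] at hy
    have hl : y - y₀ ≠ 0 := by
      intro h
      exact hy.1 (by rw [sub_eq_zero.1 h])
    refine ⟨hl, ?_⟩
    have h1 : c * (x₀ + (y - y₀) * 0) ^ 2 + d * (y₀ + (y - y₀) * 1) ^ 2 = r := by
      rw [← hy.2]
      ring
    have := Fa_key hl h0 h1
    linear_combination this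
  -- the other directions
  have ho : ∀ x y, (x, y) ∈ S.erase (x₀, y₀) → x ≠ x₀ →
      (x - x₀) * (c + d * ((y - y₀) / (x - x₀)) ^ 2) =
        -2 * (c * x₀ + d * y₀ * ((y - y₀) / (x - x₀))) ∧
      c + d * ((y - y₀) / (x - x₀)) ^ 2 ≠ 0 := by
    intro x y hy hx
    rw [Finset.mem_erase, hSm] at hy
    have hl : x - x₀ ≠ 0 := sub_ne_zero.2 hx
    have h1 : c * (x₀ + (x - x₀) * 1) ^ 2 + d * (y₀ + (x - x₀) * ((y - y₀) / (x - x₀))) ^ 2 = r := by
      rw [mul_div_cancel₀ _ hl, ← hy.2]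
      ring
    have h3 := Fa_key hl h0 h1
    have h4 := Fa_ne h2 hc hd hr hl (Or.inl one_ne_zero) h0 h1
    refine ⟨by linear_combination h3, fun h => h4 (by linear_combination h)⟩
  refine Finset.card_le_card_of_injOn
    (fun p : k × k => if p.1 = x₀ then none else some ((p.2 - y₀) / (p.1 - x₀))) ?_ ?_
  · rintro ⟨x, y⟩ hp
    rw [Finset.mem_coe] at hp
    rw [Finset.mem_coe, Finset.mem_erase]
    refine ⟨?_, Finset.mem_univ _⟩
    dsimp only
    by_cases hx : x = x₀
    · subst hx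
      rw [if_pos rfl, hT]
      obtain ⟨hl, h3⟩ := hv y hp
      intro h
      split_ifs at h with hy0
      rw [hy0] at h3 hl
      have : (y - 0) * d = 0 := by rw [h3]; ring
      exact mul_ne_zero hl hd this
    · rw [if_neg hx, hT]
      obtain ⟨h3, h4⟩ := ho x y hp hx
      intro h
      split_ifs at h with hy0
      have h5 := Option.some.inj h
      rw [h5] at h3 h4
      have h6 : c * x₀ + d * y₀ * (-(c * x₀) / (d * y₀)) = 0 := by
        rw [mul_div_cancel₀ _ (mul_ne_zero hd hy0)]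
        ring
      rw [h6, mul_zero] at h3
      exact mul_ne_zero (sub_ne_zero.2 hx) h4 h3
  · rintro ⟨x, y⟩ hp ⟨x', y'⟩ hp' hpp
    rw [Finset.mem_coe] at hp hp'
    dsimp only at hpp
    by_cases hx : x = x₀
    · by_cases hx' : x' = x₀
      · subst hx
        subst hx'
        obtain ⟨-, h3⟩ := hv y hp
        obtain ⟨-, h3'⟩ := hv y' hp'
        have h4 : y - y₀ = y' - y₀ := mul_right_cancel₀ hd (h3.trans h3'.symm)
        rw [sub_left_injective h4]
      · rw [if_pos hx, if_neg hx'] at hpp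
        exact absurd hpp.symm (Option.some_ne_none _)
    · by_cases hx' : x' = x₀
      · rw [if_neg hx, if_pos hx'] at hpp
        exact absurd hpp (Option.some_ne_none _)
      · rw [if_neg hx, if_neg hx'] at hpp
        have h5 := Option.some.inj hpp
        obtain ⟨h3, h4⟩ := ho x y hp hx
        obtain ⟨h3', -⟩ := ho x' y' hp' hx'
        rw [← h5] at h3'
        have h6 : x - x₀ = x' - x₀ := mul_right_cancel₀ h4 (h3.trans h3'.symm)
        have h7 : x = x' := sub_left_injective h6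
        subst h7
        have h8 : y - y₀ = y' - y₀ := by
          rwa [div_left_inj' (sub_ne_zero.2 hx)] at h5
        rw [sub_left_injective h8]

end H54PP
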