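import Pool.Agent.H54.PP.Fa

/-!
ROW Fb (project MP_78d38b_PP, about 90 lines): numbers of nonsquares and of values of a quadratic
polynomial which are squares. Use the STATEMENT `conic` (Fa).

PROOF. nsq: `quadraticChar_sum_zero` (`ringChar k ≠ 2`, from `2 ≠ 0`: `ringChar` 2 would give `2 = 0`,
`ringChar.spec`), the character is `1` on nonzero squares, `-1` on nonsquares, `0` at `0`. Or directly: if `a` is a
nonsquare then multiplication by `a` is an injection of the nonsquares into the nonzero squares
(`quadraticChar_neg_one_iff_not_isSquare`, `quadraticChar_one_iff_isSquare`, `map_mul`), and nonsquares, nonzero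
squares and `0` partition `k`.
tcount: `D ≠ 0` (`0` is a square), `9 ≠ 0` (as `6 ≠ 0`). For each `t` of the set `α (9 t^2 - D) ≠ 0` (otherwise `D = (3 t)^2`), so it
is `z^2 = (-z)^2`, `z ≠ 0`, `z ≠ -z`: at least two points `(z, t)` of the conic
`1 z^2 + (-9 α) t^2 = - α D` lie over `t`. So `2 * #t ≤ #points ≤ q + 1` by `conic` (`c = 1`, `d = -9 α`, `r = -α D`).
(For the counting: `Finset.card_nsmul_le_card_of_..`, e.g. `Finset.mul_card_image_le_card`-like lemmas, or the injection
`(t, b) ↦ (if b then z t else - z t, t)` of `S ×ˢ (univ : Finset Bool)` with `z` chosen by `choose`.)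
-/

set_option autoImplicit false
open scoped Classical

namespace H54PP

theorem nsq {k : Type} [Field k] [Fintype k] (h2 : (2 : k) ≠ 0) :
    2 * (Finset.univ.filter (fun x : k => ¬ IsSquare x)).card + 1 ≤ Fintype.card k := by
  have hc : ringChar k ≠ 2 := by
    intro h
    apply h2
    have h1 := (ringChar.spec k 2).2 (by rw [h])
    exact_mod_cast h1
  have h1 := quadraticChar_sum_zero hc
  have h3 : ∀ a : k, quadraticChar k a = 1 - 2 * (if ¬ IsSquare a then 1 else 0) -
      (if a = 0 then 1 else 0) := by
    intro a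
    by_cases h0 : a = 0
    · subst h0
      have hs : IsSquare (0 : k) := IsSquare.zero
      simp [hs]
    · by_cases hs : IsSquare a
      · rw [(quadraticChar_one_iff_isSquare h0).2 hs]
        simp [hs, h0]
      · rw [quadraticChar_neg_one_iff_not_isSquare.2 hs]
        simp [hs, h0]
  rw [Finset.sum_congr rfl fun a _ => h3 a, Finset.sum_sub_distrib, Finset.sum_sub_distrib,
    ← Finset.mul_sum, Finset.sum_ite_eq' Finset.univ (0 : k)] at h1
  rw [Finset.sum_boole, Finset.sum_const, Finset.card_univ] at h1
  simp only [Finset.mem_univ, if_true, nsmul_eq_mul, mul_one] at h1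
  have h4 : (2 * ((Finset.univ.filter (fun x : k => ¬ IsSquare x)).card : ℤ) + 1) = (Fintype.card k : ℤ) := by
    linarith
  have h5 : 2 * (Finset.univ.filter (fun x : k => ¬ IsSquare x)).card + 1 = Fintype.card k := by
    exact_mod_cast h4
  exact h5.le

theorem tcount {k : Type} [Field k] [Fintype k] (h6 : (6 : k) ≠ 0) {α D : k} (hα : α ≠ 0)
    (hD : ¬ IsSquare D) :
    2 * (Finset.univ.filter (fun t : k => IsSquare (α * (9 * t ^ 2 - D)))).card ≤
      Fintype.card k + 1 := by
  have h2 : (2 : k) ≠ 0 := by
    intro h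
    apply h6
    calc (6 : k) = 2 * 3 := by norm_num
      _ = 0 := by rw [h, zero_mul]
  have h3 : (3 : k) ≠ 0 := by
    intro h
    apply h6
    calc (6 : k) = 2 * 3 := by norm_num
      _ = 0 := by rw [h, mul_zero]
  have h9 : (9 : k) ≠ 0 := by
    have : (9 : k) = 3 * 3 := by norm_num
    rw [this]
    exact mul_ne_zero h3 h3
  have hD0 : D ≠ 0 := by
    rintro rfl
    exact hD IsSquare.zero
  set S := Finset.univ.filter (fun t : k => IsSquare (α * (9 * t ^ 2 - D))) with hS
  have hz : ∀ t : k, ∃ z : k, t ∈ S → α * (9 * t ^ 2 - D) = z * z := by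
    intro t
    by_cases ht : t ∈ S
    · obtain ⟨z, hz⟩ := (Finset.mem_filter.1 ht).2
      exact ⟨z, fun _ => hz⟩
    · exact ⟨0, fun h => absurd h ht⟩
  choose z hz using hz
  have hz0 : ∀ t ∈ S, z t ≠ 0 := by
    intro t ht h0
    have h1 := hz t ht
    rw [h0, mul_zero] at h1
    rcases mul_eq_zero.1 h1 with h4 | h4
    · exact hα h4
    · apply hD
      refine ⟨3 * t, ?_⟩
      linear_combination -h4
  have h5 : (S ×ˢ (Finset.univ : Finset Bool)).card ≤
      (Finset.univ.filter (fun p : k × k => 1 * p.1 ^ 2 + (-9 * α) * p.2 ^ 2 = -(α * D))).card := by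
    refine Finset.card_le_card_of_injOn (fun q : k × Bool => (if q.2 then z q.1 else - z q.1, q.1)) ?_ ?_
    · rintro ⟨t, b⟩ hq
      have ht : t ∈ S := (Finset.mem_product.1 hq).1
      have h1 := hz t ht
      rw [Finset.mem_coe, Finset.mem_filter]
      refine ⟨Finset.mem_univ _, ?_⟩
      show 1 * (if b then z t else - z t) ^ 2 + (-9 * α) * t ^ 2 = -(α * D)
      have h4 : (if b then z t else - z t) ^ 2 = z t * z t := by
        split_ifs
        · ring
        · ring
      rw [h4, ← h1]
      ring
    · rintro ⟨t, b⟩ hq ⟨t', b'⟩ hq' he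
      have ht : t ∈ S := (Finset.mem_product.1 hq).1
      simp only [Prod.mk.injEq] at he
      obtain ⟨he1, rfl⟩ := he
      have hne : z t ≠ - z t := by
        intro h
        have h4 : 2 * z t = 0 := by linear_combination h
        rcases mul_eq_zero.1 h4 with h5 | h5
        · exact h2 h5
        · exact hz0 t ht h5
      cases b <;> cases b'
      · rfl
      · exact absurd (by simpa using he1.symm) hne
      · exact absurd (by simpa using he1) hne
      · rfl
  rw [Finset.card_product, Finset.card_univ, Fintype.card_bool] at h5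
  have h6' := conic h2 (c := 1) (d := -9 * α) (r := -(α * D)) one_ne_zero
    (mul_ne_zero (neg_ne_zero.2 h9) hα) (neg_ne_zero.2 (mul_ne_zero hα hD0))
  omega

end H54PP
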