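import Mathlib

/-!
ROW Fc (project MP_78d38b_PP, about 130 lines, Mathlib only): an orthogonal basis of a symmetric
bilinear form on `k^3` which starts with a given anisotropic vector.

PROOF. `v = M e`, `α = e ⬝ v ≠ 0`, `B(x, y) = x ⬝ M y = B(y, x)` (`M` symmetric; write everything with the entries,
`Fin.sum_univ_three`, `Matrix.mulVec`, `dotProduct`, the symmetry as three equations `M 1 0 = M 0 1`, ...).
Step 1: there is `f` with `f ⬝ v = 0` and `B(f, f) ≠ 0`. For any `x` put `f = α x - (v ⬝ x) e`: `f ⬝ v = 0` and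
`B(f, f) = α (α B(x, x) - (v ⬝ x)^2)`. If all these vanish then `α B(x, x) = (v ⬝ x)^2` for all `x`, so (apply it to the standard
basis vectors `eᵢ` and to `eᵢ + eⱼ`, `2 ≠ 0`) `α M i j = v i * v j` for all `i, j`, hence `α^3 det M = 0` (`Matrix.det_fin_three`, or
directly `α^3 det M` is the determinant of the matrix `v i * v j`), a contradiction.
Step 2: `g = v × (M f)` (cross product, write the three coordinates explicitly or `crossProduct`):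
`g ⬝ M e = 0`, `g ⬝ M f = 0`. `P` = the matrix with columns `e, f, g`. `det P = (e × f) ⬝ (Me × Mf) = B(e,e) B(f,f) - B(e,f)^2 =
α B(f, f) ≠ 0` (polynomial identity up to `B(e, f) = f ⬝ v = 0`). `Pᵀ M P = diagonal ![α, B(f,f), B(g,g)]` entry by entry.
`γ = B(g, g) ≠ 0` because `α * B(f,f) * γ = det (Pᵀ M P) = (det P)^2 det M ≠ 0`.
-/

set_option autoImplicit false
open scoped Classical

open scoped Matrix

namespace H54PP

/-- the value of the form in coordinates -/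
private lemma Fc_key {k : Type} [Field k] {M : Matrix (Fin 3) (Fin 3) k} (hM : M.IsSymm)
    (x y : Fin 3 → k) : x ⬝ᵥ M.mulVec y =
      x 0 * (M 0 0 * y 0 + M 0 1 * y 1 + M 0 2 * y 2) +
      x 1 * (M 0 1 * y 0 + M 1 1 * y 1 + M 1 2 * y 2) +
      x 2 * (M 0 2 * y 0 + M 1 2 * y 1 + M 2 2 * y 2) := by
  have s10 : M 1 0 = M 0 1 := hM.apply 0 1
  have s20 : M 2 0 = M 0 2 := hM.apply 0 2
  have s21 : M 2 1 = M 1 2 := hM.apply 1 2
  simp only [Matrix.mulVec, dotProduct, Fin.sum_univ_three, s10, s20, s21]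

private lemma Fc_symm {k : Type} [Field k] {M : Matrix (Fin 3) (Fin 3) k} (hM : M.IsSymm)
    (x y : Fin 3 → k) : x ⬝ᵥ M.mulVec y = y ⬝ᵥ M.mulVec x := by
  rw [Fc_key hM, Fc_key hM]
  ring

private lemma Fc_step1 {k : Type} [Field k] (h2 : (2 : k) ≠ 0) {M : Matrix (Fin 3) (Fin 3) k}
    (hM : M.IsSymm) (hd : M.det ≠ 0) {e : Fin 3 → k} (he : e ⬝ᵥ M.mulVec e ≠ 0) :
    ∃ w : Fin 3 → k, w ⬝ᵥ M.mulVec e = 0 ∧ w ⬝ᵥ M.mulVec w ≠ 0 := by
  by_contra hcon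
  push Not at hcon
  obtain ⟨α, hα⟩ : ∃ α : k, α = e ⬝ᵥ M.mulVec e := ⟨_, rfl⟩
  rw [← hα] at he
  have hx : ∀ x : Fin 3 → k, α * (x ⬝ᵥ M.mulVec x) = (x ⬝ᵥ M.mulVec e) ^ 2 := by
    intro x
    obtain ⟨t, ht⟩ : ∃ t : k, t = x ⬝ᵥ M.mulVec e := ⟨_, rfl⟩
    obtain ⟨w, hw⟩ : ∃ w : Fin 3 → k, w = fun i => α * x i - t * e i := ⟨_, rfl⟩
    have hw1 : w ⬝ᵥ M.mulVec e = α * (x ⬝ᵥ M.mulVec e) - t * (e ⬝ᵥ M.mulVec e) := by
      rw [Fc_key hM, Fc_key hM, Fc_key hM, hw]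
      ring
    have hw2 : w ⬝ᵥ M.mulVec w = α ^ 2 * (x ⬝ᵥ M.mulVec x) - 2 * (α * t) * (x ⬝ᵥ M.mulVec e) +
        t ^ 2 * (e ⬝ᵥ M.mulVec e) := by
      rw [Fc_key hM, Fc_key hM, Fc_key hM, Fc_key hM, hw]
      ring
    have hw3 : w ⬝ᵥ M.mulVec e = 0 := by
      rw [hw1, ← hα, ← ht]
      ring
    have hw4 := hcon w hw3
    rw [hw2, ← hα, ← ht] at hw4
    rw [← ht]
    have h5 : α * (α * (x ⬝ᵥ M.mulVec x) - t ^ 2) = 0 := by
      linear_combination hw4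
    rcases mul_eq_zero.1 h5 with h6 | h6
    · exact absurd h6 he
    · exact sub_eq_zero.1 h6
  obtain ⟨v, hv⟩ : ∃ v : Fin 3 → k, v = M.mulVec e := ⟨_, rfl⟩
  rw [← hv] at hx
  have hx' : ∀ a b c : k, α * (a * (M 0 0 * a + M 0 1 * b + M 0 2 * c) +
      b * (M 0 1 * a + M 1 1 * b + M 1 2 * c) + c * (M 0 2 * a + M 1 2 * b + M 2 2 * c)) =
      (a * v 0 + b * v 1 + c * v 2) ^ 2 := by
    intro a b c
    have h1 := hx ![a, b, c]
    rw [Fc_key hM] at h1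
    simpa [dotProduct, Fin.sum_univ_three] using h1
  have e00 : α * M 0 0 = v 0 ^ 2 := by linear_combination hx' 1 0 0
  have e11 : α * M 1 1 = v 1 ^ 2 := by linear_combination hx' 0 1 0
  have e22 : α * M 2 2 = v 2 ^ 2 := by linear_combination hx' 0 0 1
  have e01 : α * M 0 1 = v 0 * v 1 := by
    apply mul_left_cancel₀ h2
    linear_combination hx' 1 1 0 - e00 - e11
  have e02 : α * M 0 2 = v 0 * v 2 := by
    apply mul_left_cancel₀ h2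
    linear_combination hx' 1 0 1 - e00 - e22
  have e12 : α * M 1 2 = v 1 * v 2 := by
    apply mul_left_cancel₀ h2
    linear_combination hx' 0 1 1 - e11 - e22
  have s10 : M 1 0 = M 0 1 := hM.apply 0 1
  have s20 : M 2 0 = M 0 2 := hM.apply 0 2
  have s21 : M 2 1 = M 1 2 := hM.apply 1 2
  have h7 : α ^ 3 * M.det = 0 := by
    rw [Matrix.det_fin_three, s10, s20, s21]
    have h8 : α ^ 3 * (M 0 0 * M 1 1 * M 2 2 - M 0 0 * M 1 2 * M 1 2 - M 0 1 * M 0 1 * M 2 2 +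
        M 0 1 * M 1 2 * M 0 2 + M 0 2 * M 0 1 * M 1 2 - M 0 2 * M 1 1 * M 0 2) =
        (α * M 0 0) * (α * M 1 1) * (α * M 2 2) - (α * M 0 0) * (α * M 1 2) * (α * M 1 2) -
        (α * M 0 1) * (α * M 0 1) * (α * M 2 2) + (α * M 0 1) * (α * M 1 2) * (α * M 0 2) +
        (α * M 0 2) * (α * M 0 1) * (α * M 1 2) - (α * M 0 2) * (α * M 1 1) * (α * M 0 2) := by
      ring
    rw [h8, e00, e11, e22, e01, e02, e12]
    ring
  rcases mul_eq_zero.1 h7 with h9 | h9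
  · exact he (pow_eq_zero_iff (by norm_num) |>.1 h9)
  · exact hd h9

theorem diag_basis {k : Type} [Field k] (h2 : (2 : k) ≠ 0) {M : Matrix (Fin 3) (Fin 3) k}
    (hM : M.IsSymm) (hd : M.det ≠ 0) {e : Fin 3 → k} (he : e ⬝ᵥ M.mulVec e ≠ 0) :
    ∃ (P : Matrix (Fin 3) (Fin 3) k) (β γ : k), P.det ≠ 0 ∧ β ≠ 0 ∧ γ ≠ 0 ∧
      (∀ i, P i 0 = e i) ∧ Pᵀ * M * P = Matrix.diagonal ![e ⬝ᵥ M.mulVec e, β, γ] := by
  obtain ⟨w, hw1, hw2⟩ := Fc_step1 h2 hM hd he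
  have s10 : M 1 0 = M 0 1 := hM.apply 0 1
  have s20 : M 2 0 = M 0 2 := hM.apply 0 2
  have s21 : M 2 1 = M 1 2 := hM.apply 1 2
  obtain ⟨v, hv⟩ : ∃ v : Fin 3 → k, v = M.mulVec e := ⟨_, rfl⟩
  obtain ⟨u, hu⟩ : ∃ u : Fin 3 → k, u = M.mulVec w := ⟨_, rfl⟩
  obtain ⟨g, hg⟩ : ∃ g : Fin 3 → k, g = ![v 1 * u 2 - v 2 * u 1, v 2 * u 0 - v 0 * u 2,
    v 0 * u 1 - v 1 * u 0] := ⟨_, rfl⟩
  have hg0 : g 0 = v 1 * u 2 - v 2 * u 1 := by rw [hg]; rfl
  have hg1 : g 1 = v 2 * u 0 - v 0 * u 2 := by rw [hg]; rfl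
  have hg2 : g 2 = v 0 * u 1 - v 1 * u 0 := by rw [hg]; rfl
  have hev : ∀ x y : Fin 3 → k, x ⬝ᵥ y = x 0 * y 0 + x 1 * y 1 + x 2 * y 2 := fun x y => by
    simp only [dotProduct, Fin.sum_univ_three]
  have hgv : g ⬝ᵥ M.mulVec e = 0 := by
    rw [← hv, hev, hg0, hg1, hg2]
    ring
  have hgu : g ⬝ᵥ M.mulVec w = 0 := by
    rw [← hu, hev, hg0, hg1, hg2]
    ring
  obtain ⟨C, hC⟩ : ∃ C : Fin 3 → Fin 3 → k, C = ![e, w, g] := ⟨_, rfl⟩
  obtain ⟨P, hP⟩ : ∃ P : Matrix (Fin 3) (Fin 3) k, P = Matrix.of fun i j => C j i := ⟨_, rfl⟩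
  have hC0 : C 0 = e := by rw [hC]; rfl
  have hC1 : C 1 = w := by rw [hC]; rfl
  have hC2 : C 2 = g := by rw [hC]; rfl
  have hPe : ∀ i j, P i j = C j i := fun i j => by rw [hP]; rfl
  have hprod : ∀ i j, (Pᵀ * M * P) i j = C i ⬝ᵥ M.mulVec (C j) := by
    intro i j
    rw [Matrix.mul_assoc, Matrix.mul_apply']
    have h3 : (fun l => (M * P) l j) = M.mulVec (C j) := by
      funext l
      rw [Matrix.mul_apply]
      simp only [Matrix.mulVec, dotProduct, hPe]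
    have h4 : Pᵀ i = C i := by
      funext l
      rw [Matrix.transpose_apply, hPe]
    rw [h3]
    congr 1
  have hdetP : P.det = (e ⬝ᵥ M.mulVec e) * (w ⬝ᵥ M.mulVec w) := by
    have h3 : (w ⬝ᵥ v) = 0 := by rw [hv]; exact hw1
    rw [← hv, ← hu, hev, hev]
    rw [hev] at h3
    rw [Matrix.det_fin_three]
    simp only [hPe, hC0, hC1, hC2]
    rw [hg0, hg1, hg2]
    linear_combination (-(e 0 * u 0 + e 1 * u 1 + e 2 * u 2)) * h3
  have hdiag : Pᵀ * M * P =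
      Matrix.diagonal ![e ⬝ᵥ M.mulVec e, w ⬝ᵥ M.mulVec w, g ⬝ᵥ M.mulVec g] := by
    ext i j
    rw [hprod]
    have hew := Fc_symm hM e w
    have heg := Fc_symm hM e g
    have hwg := Fc_symm hM w g
    rw [hw1] at hew
    rw [hgv] at heg
    rw [hgu] at hwg
    fin_cases i <;> fin_cases j <;>
      simp [hC0, hC1, hC2, hew, heg, hwg, hw1, hgv, hgu]
  have hPne : P.det ≠ 0 := by
    rw [hdetP]
    exact mul_ne_zero he hw2
  refine ⟨P, w ⬝ᵥ M.mulVec w, g ⬝ᵥ M.mulVec g, hPne, hw2, ?_, fun i => by rw [hPe, hC0], hdiag⟩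
  intro h0
  have h3 := congrArg Matrix.det hdiag
  rw [Matrix.det_mul, Matrix.det_mul, Matrix.det_transpose, Matrix.det_diagonal,
    Fin.prod_univ_three] at h3
  have h4 : P.det * M.det * P.det = 0 := by
    rw [h3]
    show (e ⬝ᵥ M.mulVec e) * (w ⬝ᵥ M.mulVec w) * (g ⬝ᵥ M.mulVec g) = 0
    rw [h0, mul_zero]
  exact mul_ne_zero (mul_ne_zero hPne hd) hPne h4

end H54PP
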