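import Mathlib

/-!
ROW Fd (project MP_78d38b_PP, about 90 lines, Mathlib only): a symmetric matrix `N` for which the first
standard vector is an eigenvector with respect to a diagonal matrix.

PROOF. `M = diagonal ![α, β, γ]`. The three coordinates of `hN`: `N 0 0 = t α`, `N 1 0 = 0`, `N 2 0 = 0`
(`Matrix.mulVec`, `Fin.sum_univ_three`), and by symmetry `N 0 1 = N 0 2 = 0`, `N 2 1 = N 1 2 =: w`. Put `n₁ = N 1 1`,
`n₂ = N 2 2`. `det (x M - N) = (x - t) α ((x β - n₁) (x γ - n₂) - w^2)` (`Matrix.det_fin_three`), `det M = α β γ`. So for all `x`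
`(x - t) α ((x β - n₁) (x γ - n₂) - w^2) = α β γ (x^3 + a x + b)`. Take `x = 0, 1, -1` (`2 ≠ 0`): the coefficients of `x^2`
and of `x` agree: `- α (t β γ + n₁ γ + n₂ β) = 0` and `α (n₁ n₂ - w^2 + t (n₁ γ + n₂ β)) = α β γ a`.
Divide by `α β γ`: with `u = n₁/β`, `z = n₂/γ`: `u + z = -t`, `a = u z - w^2/(β γ) + t (u + z) = u z - w^2/(βγ) - t^2`. So
`-3 t^2 - 4 a = t^2 - 4 u z + 4 w^2/(βγ) = (u - z)^2 + 4/(βγ) w^2`.
-/

set_option autoImplicit false
open scoped Classical

open scoped Matrix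

namespace H54PP

theorem par {k : Type} [Field k] (h2 : (2 : k) ≠ 0) {α β γ : k} (hα : α ≠ 0) (hβ : β ≠ 0)
    (hγ : γ ≠ 0) {N : Matrix (Fin 3) (Fin 3) k} (hNs : N.IsSymm) {a b t : k}
    (hch : ∀ x : k, (x • Matrix.diagonal ![α, β, γ] - N).det =
      (Matrix.diagonal ![α, β, γ]).det * (x ^ 3 + a * x + b))
    (hN : N.mulVec ![1, 0, 0] = t • (Matrix.diagonal ![α, β, γ]).mulVec ![1, 0, 0]) :
    N 0 0 = t * α ∧ N 0 1 = 0 ∧ N 0 2 = 0 ∧ N 1 1 / β + N 2 2 / γ = -t ∧
      -3 * t ^ 2 - 4 * a = 4 * ((N 1 1 / β - N 2 2 / γ) / 2) ^ 2 + 4 / (β * γ) * (N 1 2) ^ 2 := by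
  have h00 : N 0 0 = t * α := by
    have := congrFun hN 0
    rw [Pi.smul_apply, Matrix.mulVec_diagonal] at this
    simpa [Matrix.mulVec, dotProduct, Fin.sum_univ_three] using this
  have h10 : N 1 0 = 0 := by
    have := congrFun hN 1
    rw [Pi.smul_apply, Matrix.mulVec_diagonal] at this
    simpa [Matrix.mulVec, dotProduct, Fin.sum_univ_three] using this
  have h20 : N 2 0 = 0 := by
    have := congrFun hN 2
    rw [Pi.smul_apply, Matrix.mulVec_diagonal] at this
    simpa [Matrix.mulVec, dotProduct, Fin.sum_univ_three] using this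
  have h01 : N 0 1 = 0 := by rw [← hNs.apply 0 1]; exact h10
  have h02 : N 0 2 = 0 := by rw [← hNs.apply 0 2]; exact h20
  have h21 : N 2 1 = N 1 2 := by rw [← hNs.apply 2 1]
  have hdet : ∀ x : k, (x * α - N 0 0) * ((x * β - N 1 1) * (x * γ - N 2 2) - N 1 2 ^ 2) =
      α * β * γ * (x ^ 3 + a * x + b) := by
    intro x
    have := hch x
    rw [Matrix.det_fin_three, Matrix.det_fin_three] at this
    simp [Matrix.diagonal, h10, h20, h01, h02, h21] at this
    linear_combination this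
  have e0 := hdet 0
  have e1 := hdet 1
  have e2 := hdet (-1)
  rw [h00] at e0 e1 e2
  have hx2 : t * β * γ + N 1 1 * γ + N 2 2 * β = 0 := by
    have : 2 * α * (t * β * γ + N 1 1 * γ + N 2 2 * β) = 0 := by
      linear_combination 2 * e0 - e1 - e2
    rcases mul_eq_zero.1 this with h | h
    · rcases mul_eq_zero.1 h with h | h
      · exact absurd h h2
      · exact absurd h hα
    · exact h
  have hx1 : N 1 1 * N 2 2 - N 1 2 ^ 2 + t * (N 1 1 * γ + N 2 2 * β) = β * γ * a := by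
    have : 2 * α * (N 1 1 * N 2 2 - N 1 2 ^ 2 + t * (N 1 1 * γ + N 2 2 * β) - β * γ * a) = 0 := by
      linear_combination e1 - e2
    rcases mul_eq_zero.1 this with h | h
    · rcases mul_eq_zero.1 h with h | h
      · exact absurd h h2
      · exact absurd h hα
    · exact sub_eq_zero.1 h
  refine ⟨h00, h01, h02, ?_, ?_⟩
  · field_simp
    linear_combination hx2
  · have hs : N 1 1 * γ + N 2 2 * β = - (t * β * γ) := by linear_combination hx2
    rw [hs] at hx1
    have h4 : (2:k) ^ 2 ≠ 0 := pow_ne_zero _ h2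
    have hsum : (N 1 1 / β + N 2 2 / γ) ^ 2 = t ^ 2 := by
      have : N 1 1 / β + N 2 2 / γ = -t := by
        field_simp
        linear_combination hx2
      rw [this]; ring
    have ha : a = (N 1 1 / β) * (N 2 2 / γ) - N 1 2 ^ 2 / (β * γ) - t ^ 2 := by
      field_simp
      linear_combination -hx1
    have e5 : 4 * ((N 1 1 / β - N 2 2 / γ) / 2) ^ 2 = (N 1 1 / β - N 2 2 / γ) ^ 2 := by
      field_simp
      ring
    rw [e5, ha]
    have e6 : (N 1 1 / β - N 2 2 / γ) ^ 2 = t ^ 2 - 4 * ((N 1 1 / β) * (N 2 2 / γ)) := by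
      rw [← hsum]; ring
    rw [e6]; ring

end H54PP
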