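import Pool.Agent.H54.PP.Fb
import Pool.Agent.H54.PP.Fc
import Pool.Agent.H54.PP.Fd

/-!
ROW Fe (project MP_78d38b_PP, about 200 lines): number of symmetric matrices `N` with the residue
condition for a fixed eigenvector `e`. Use the STATEMENTS `conic`, `nsq`, `tcount`, `diag_basis`, `par`.

PROOF. `q = card k`. If `e ⬝ M e = 0` the set is empty. Otherwise take `P, β, γ` from `diag_basis`, `α = e ⬝ M e`.
Let `N` be in the set (with `a, b, t`), `N' = Pᵀ N P` (symmetric), `M' = Pᵀ M P = diagonal ![α, β, γ]`. `P ![1,0,0] = e`, so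
`N' ![1,0,0] = Pᵀ N e = t Pᵀ M e = t M' ![1,0,0]`; `det (x M' - N') = det (Pᵀ (x M - N) P) = (det P)^2 det (x M - N)` and
`det M' = (det P)^2 det M`. So `par` applies to `N'` with the same `a, b, t`. Put
`ψ N = (N' 0 0 / α, (N' 1 1 / β - N' 2 2 / γ) / 2, N' 1 2) ∈ k × k × k`.
Injective on the set: `N' 0 0 = t α`, `N' 0 1 = N' 0 2 = 0`, `N' 1 1 / β` and `N' 2 2 / γ` are determined by their sum `-t` and
difference, `N' 1 2` is given: so `N'` is determined by `ψ N`, and `N = (Pᵀ)⁻¹ N' P⁻¹` (`det P ≠ 0`).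
Image: `ψ N = (t, s, w)` with `D := 4 s^2 + 4/(βγ) w^2 = -3 t^2 - 4 a` not a square and
`α (9 t^2 - D) = 2^2 (α (3 t^2 + a))` a square.
Count: let `W = {(t, s, w) | D not a square, α (9 t^2 - D) a square}`, `D = 4 s^2 + 4/(βγ) w^2`. `W` is the disjoint union over
the nonsquares `D` of `{t | α (9 t^2 - D) square} × {(s, w) | 4 s^2 + 4/(βγ) w^2 = D}` (e.g. `Finset.card_eq_sum_card_fiberwise` with
the map to `D`, or `Finset.card_biUnion_le`), each product has `≤ T_D (q + 1)` elements, `2 T_D ≤ q + 1` (`tcount`), the second factor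
by `conic` (`c = 4`, `d = 4/(βγ)`, `r = D ≠ 0`), and there are `n` nonsquares, `2 n + 1 ≤ q`. So
`4 #W ≤ (2 n) (q + 1) (q + 1) ≤ (q - 1) (q + 1)^2`.
-/

/-!
ROW Fe (project MP_78d38b_PP, about 200 lines): number of symmetric matrices `N` with the residue
condition for a fixed eigenvector `e`. Use the STATEMENTS `conic`, `nsq`, `tcount`, `diag_basis`, `par`.

PROOF. `q = card k`. If `e ⬝ M e = 0` the set is empty. Otherwise take `P, β, γ` from `diag_basis`, `α = e ⬝ M e`.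
Let `N` be in the set (with `a, b, t`), `N' = Pᵀ N P` (symmetric), `M' = Pᵀ M P = diagonal ![α, β, γ]`. `P ![1,0,0] = e`, so
`N' ![1,0,0] = Pᵀ N e = t Pᵀ M e = t M' ![1,0,0]`; `det (x M' - N') = det (Pᵀ (x M - N) P) = (det P)^2 det (x M - N)` and
`det M' = (det P)^2 det M`. So `par` applies to `N'` with the same `a, b, t`. Put
`ψ N = (N' 0 0 / α, (N' 1 1 / β - N' 2 2 / γ) / 2, N' 1 2) ∈ k × k × k`.
Injective on the set: `N' 0 0 = t α`, `N' 0 1 = N' 0 2 = 0`, `N' 1 1 / β` and `N' 2 2 / γ` are determined by their sum `-t` and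
difference, `N' 1 2` is given: so `N'` is determined by `ψ N`, and `N = (Pᵀ)⁻¹ N' P⁻¹` (`det P ≠ 0`).
Image: `ψ N = (t, s, w)` with `D := 4 s^2 + 4/(βγ) w^2 = -3 t^2 - 4 a` not a square and
`α (9 t^2 - D) = 2^2 (α (3 t^2 + a))` a square.
Count: let `W = {(t, s, w) | D not a square, α (9 t^2 - D) a square}`, `D = 4 s^2 + 4/(βγ) w^2`. `W` is the disjoint union over
the nonsquares `D` of `{t | α (9 t^2 - D) square} × {(s, w) | 4 s^2 + 4/(βγ) w^2 = D}` (e.g. `Finset.card_eq_sum_card_fiberwise` with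
the map to `D`, or `Finset.card_biUnion_le`), each product has `≤ T_D (q + 1)` elements, `2 T_D ≤ q + 1` (`tcount`), the second factor
by `conic` (`c = 4`, `d = 4/(βγ)`, `r = D ≠ 0`), and there are `n` nonsquares, `2 n + 1 ≤ q`. So
`4 #W ≤ (2 n) (q + 1) (q + 1) ≤ (q - 1) (q + 1)^2`.
-/

set_option autoImplicit false
open scoped Classical

open scoped Matrix

namespace H54PP

/-- The residue condition with a given eigenvector. -/
def RsE {k : Type*} [Field k] (M N : Matrix (Fin 3) (Fin 3) k) (e : Fin 3 → k) : Prop :=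
  ∃ a b t : k, (∀ x : k, (x • M - N).det = M.det * (x ^ 3 + a * x + b)) ∧
    N.mulVec e = t • M.mulVec e ∧ ¬ IsSquare (-3 * t ^ 2 - 4 * a) ∧
    e ⬝ᵥ M.mulVec e ≠ 0 ∧ IsSquare ((e ⬝ᵥ M.mulVec e) * (3 * t ^ 2 + a))

theorem Fe_key {k : Type} [Field k] (h2 : (2 : k) ≠ 0) {M N P : Matrix (Fin 3) (Fin 3) k}
    {e : Fin 3 → k} {α β γ : k} (hα : α ≠ 0) (hβ : β ≠ 0) (hγ : γ ≠ 0)
    (hαe : α = e ⬝ᵥ M.mulVec e) (hcol : ∀ i, P i 0 = e i)
    (hdiag : Pᵀ * M * P = Matrix.diagonal ![α, β, γ]) (hN : N.IsSymm) (h : RsE M N e) :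
    (Pᵀ * N * P).IsSymm ∧ (Pᵀ * N * P) 0 1 = 0 ∧ (Pᵀ * N * P) 0 2 = 0 ∧
      (Pᵀ * N * P) 1 1 / β + (Pᵀ * N * P) 2 2 / γ = -((Pᵀ * N * P) 0 0 / α) ∧
      ¬ IsSquare (4 * (((Pᵀ * N * P) 1 1 / β - (Pᵀ * N * P) 2 2 / γ) / 2) ^ 2 +
        4 / (β * γ) * ((Pᵀ * N * P) 1 2) ^ 2) ∧
      IsSquare (α * (9 * ((Pᵀ * N * P) 0 0 / α) ^ 2 -
        (4 * (((Pᵀ * N * P) 1 1 / β - (Pᵀ * N * P) 2 2 / γ) / 2) ^ 2 +
        4 / (β * γ) * ((Pᵀ * N * P) 1 2) ^ 2))) := by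
  obtain ⟨a, b, t, hch, hNe, hns, -, hsq⟩ := h
  have hs : (Pᵀ * N * P).IsSymm := by
    unfold Matrix.IsSymm
    rw [Matrix.transpose_mul, Matrix.transpose_mul, Matrix.transpose_transpose, hN.eq,
      Matrix.mul_assoc]
  have hPe : P.mulVec ![1, 0, 0] = e := by
    funext i
    rw [← hcol i]
    simp [Matrix.mulVec, dotProduct, Fin.sum_univ_three]
  have hch' : ∀ x : k, (x • Matrix.diagonal ![α, β, γ] - Pᵀ * N * P).det =
      (Matrix.diagonal ![α, β, γ]).det * (x ^ 3 + a * x + b) := by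
    intro x
    have e1 : x • Matrix.diagonal ![α, β, γ] - Pᵀ * N * P = Pᵀ * (x • M - N) * P := by
      rw [← hdiag, Matrix.mul_sub, Matrix.sub_mul, Matrix.mul_smul, Matrix.smul_mul]
    rw [e1, ← hdiag, Matrix.det_mul, Matrix.det_mul, Matrix.det_mul, Matrix.det_mul, hch x]
    ring
  have hN' : (Pᵀ * N * P).mulVec ![1, 0, 0] =
      t • (Matrix.diagonal ![α, β, γ]).mulVec ![1, 0, 0] := by
    rw [← hdiag, ← Matrix.mulVec_mulVec, ← Matrix.mulVec_mulVec, hPe, hNe, Matrix.mulVec_smul,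
      ← Matrix.mulVec_mulVec, ← Matrix.mulVec_mulVec, hPe]
  obtain ⟨k1, k2, k3, k4, k5⟩ := par h2 hα hβ hγ hs hch' hN'
  have kt : (Pᵀ * N * P) 0 0 / α = t := by
    rw [k1, mul_div_assoc, div_self hα, mul_one]
  refine ⟨hs, k2, k3, by rw [k4, kt], ?_, ?_⟩
  · rw [← k5]
    exact hns
  · rw [← k5, kt]
    rw [← hαe] at hsq
    obtain ⟨r, hr⟩ := hsq
    refine ⟨2 * r, ?_⟩
    linear_combination 4 * hr

theorem Fe_count {k : Type} [Field k] [Fintype k] (h6 : (6 : k) ≠ 0) {α β γ : k} (hα : α ≠ 0)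
    (hβ : β ≠ 0) (hγ : γ ≠ 0) :
    4 * (Finset.univ.filter (fun p : k × (k × k) =>
      ¬ IsSquare (4 * p.2.1 ^ 2 + 4 / (β * γ) * p.2.2 ^ 2) ∧
      IsSquare (α * (9 * p.1 ^ 2 - (4 * p.2.1 ^ 2 + 4 / (β * γ) * p.2.2 ^ 2))))).card ≤
      (Fintype.card k - 1) * (Fintype.card k + 1) ^ 2 := by
  have h2 : (2 : k) ≠ 0 := by
    intro h
    apply h6
    have : (6 : k) = 2 * 3 := by norm_num
    rw [this, h, zero_mul]
  have h4 : (4 : k) ≠ 0 := by
    have : (4 : k) = 2 * 2 := by norm_num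
    rw [this]
    exact mul_ne_zero h2 h2
  obtain ⟨W, hW⟩ : ∃ W : Finset (k × (k × k)), W = Finset.univ.filter (fun p : k × (k × k) =>
      ¬ IsSquare (4 * p.2.1 ^ 2 + 4 / (β * γ) * p.2.2 ^ 2) ∧
      IsSquare (α * (9 * p.1 ^ 2 - (4 * p.2.1 ^ 2 + 4 / (β * γ) * p.2.2 ^ 2)))) := ⟨_, rfl⟩
  rw [← hW]
  have hWm : ∀ p ∈ W, ¬ IsSquare (4 * p.2.1 ^ 2 + 4 / (β * γ) * p.2.2 ^ 2) ∧
      IsSquare (α * (9 * p.1 ^ 2 - (4 * p.2.1 ^ 2 + 4 / (β * γ) * p.2.2 ^ 2))) := by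
    intro p hp
    rw [hW, Finset.mem_filter] at hp
    exact hp.2
  have hfib := Finset.card_eq_sum_card_fiberwise
    (f := fun p : k × (k × k) => 4 * p.2.1 ^ 2 + 4 / (β * γ) * p.2.2 ^ 2) (s := W)
    (t := Finset.univ.filter (fun x : k => ¬ IsSquare x))
    (fun p hp => Finset.mem_coe.2 (Finset.mem_filter.2 ⟨Finset.mem_univ _,
      (hWm p (Finset.mem_coe.1 hp)).1⟩))
  have hb : ∀ D ∈ Finset.univ.filter (fun x : k => ¬ IsSquare x),
      2 * (W.filter (fun p : k × (k × k) => 4 * p.2.1 ^ 2 + 4 / (β * γ) * p.2.2 ^ 2 = D)).card ≤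
        (Fintype.card k + 1) ^ 2 := by
    intro D hD
    have hD' : ¬ IsSquare D := (Finset.mem_filter.1 hD).2
    have hD0 : D ≠ 0 := by
      rintro rfl
      exact hD' ⟨0, by rw [mul_zero]⟩
    have hsub : W.filter (fun p : k × (k × k) => 4 * p.2.1 ^ 2 + 4 / (β * γ) * p.2.2 ^ 2 = D) ⊆
        (Finset.univ.filter (fun t : k => IsSquare (α * (9 * t ^ 2 - D)))) ×ˢ
        (Finset.univ.filter (fun p : k × k => 4 * p.1 ^ 2 + 4 / (β * γ) * p.2 ^ 2 = D)) := by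
      intro p hp
      rw [Finset.mem_filter] at hp
      rw [Finset.mem_product, Finset.mem_filter, Finset.mem_filter]
      refine ⟨⟨Finset.mem_univ _, ?_⟩, Finset.mem_univ _, hp.2⟩
      have h1 := (hWm p hp.1).2
      rw [hp.2] at h1
      exact h1
    have h1 := Finset.card_le_card hsub
    rw [Finset.card_product] at h1
    have h3 := conic h2 (c := 4) (d := 4 / (β * γ)) (r := D) h4
      (div_ne_zero h4 (mul_ne_zero hβ hγ)) hD0
    have h5 := tcount h6 hα hD'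
    calc 2 * (W.filter (fun p : k × (k × k) =>
          4 * p.2.1 ^ 2 + 4 / (β * γ) * p.2.2 ^ 2 = D)).card ≤
          2 * ((Finset.univ.filter (fun t : k => IsSquare (α * (9 * t ^ 2 - D)))).card *
          (Finset.univ.filter (fun p : k × k => 4 * p.1 ^ 2 + 4 / (β * γ) * p.2 ^ 2 = D)).card) :=
          Nat.mul_le_mul_left 2 h1
      _ = (2 * (Finset.univ.filter (fun t : k => IsSquare (α * (9 * t ^ 2 - D)))).card) *
          (Finset.univ.filter (fun p : k × k => 4 * p.1 ^ 2 + 4 / (β * γ) * p.2 ^ 2 = D)).card := by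
          ring
      _ ≤ (Fintype.card k + 1) * (Fintype.card k + 1) := Nat.mul_le_mul h5 h3
      _ = (Fintype.card k + 1) ^ 2 := by ring
  have hn := nsq (k := k) h2
  have hsum : 2 * W.card ≤ (Finset.univ.filter (fun x : k => ¬ IsSquare x)).card *
      (Fintype.card k + 1) ^ 2 := by
    rw [hfib, Finset.mul_sum]
    refine (Finset.sum_le_sum hb).trans (le_of_eq ?_)
    rw [Finset.sum_const, smul_eq_mul]
  calc 4 * W.card = 2 * (2 * W.card) := by ring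
    _ ≤ 2 * ((Finset.univ.filter (fun x : k => ¬ IsSquare x)).card *
      (Fintype.card k + 1) ^ 2) := Nat.mul_le_mul_left 2 hsum
    _ = (2 * (Finset.univ.filter (fun x : k => ¬ IsSquare x)).card) *
      (Fintype.card k + 1) ^ 2 := by ring
    _ ≤ (Fintype.card k - 1) * (Fintype.card k + 1) ^ 2 :=
      Nat.mul_le_mul_right _ (by omega)

theorem fixed_e {k : Type} [Field k] [Fintype k] (h6 : (6 : k) ≠ 0)
    {M : Matrix (Fin 3) (Fin 3) k} (hM : M.IsSymm) (hd : M.det ≠ 0) (e : Fin 3 → k) :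
    4 * {N : Matrix (Fin 3) (Fin 3) k | N.IsSymm ∧ RsE M N e}.ncard ≤
      (Fintype.card k - 1) * (Fintype.card k + 1) ^ 2 := by
  have h2 : (2 : k) ≠ 0 := by
    intro h
    apply h6
    have : (6 : k) = 2 * 3 := by norm_num
    rw [this, h, zero_mul]
  by_cases he : e ⬝ᵥ M.mulVec e = 0
  · have h0 : {N : Matrix (Fin 3) (Fin 3) k | N.IsSymm ∧ RsE M N e} = ∅ := by
      rw [Set.eq_empty_iff_forall_notMem]
      rintro N ⟨-, a, b, t, -, -, -, h, -⟩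
      exact h he
    rw [h0, Set.ncard_empty, mul_zero]
    exact Nat.zero_le _
  obtain ⟨P, β, γ, hP, hβ, hγ, hcol, hdiag⟩ := diag_basis h2 hM hd he
  obtain ⟨α, hαe⟩ : ∃ α : k, α = e ⬝ᵥ M.mulVec e := ⟨_, rfl⟩
  rw [← hαe] at hdiag he
  have hPu : IsUnit P.det := Ne.isUnit hP
  have hPtu : IsUnit Pᵀ.det := by rwa [Matrix.det_transpose]
  have hinj : Set.InjOn (fun N : Matrix (Fin 3) (Fin 3) k => (((Pᵀ * N * P) 0 0 / α,
      (((Pᵀ * N * P) 1 1 / β - (Pᵀ * N * P) 2 2 / γ) / 2, (Pᵀ * N * P) 1 2)) : k × (k × k)))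
      {N : Matrix (Fin 3) (Fin 3) k | N.IsSymm ∧ RsE M N e} := by
    rintro N₁ ⟨hs₁, hr₁⟩ N₂ ⟨hs₂, hr₂⟩ heq
    obtain ⟨s₁, a₁, b₁, c₁, -, -⟩ := Fe_key h2 he hβ hγ hαe hcol hdiag hs₁ hr₁
    obtain ⟨s₂, a₂, b₂, c₂, -, -⟩ := Fe_key h2 he hβ hγ hαe hcol hdiag hs₂ hr₂
    have e1 : (Pᵀ * N₁ * P) 0 0 / α = (Pᵀ * N₂ * P) 0 0 / α := congrArg Prod.fst heq
    have e2 : ((Pᵀ * N₁ * P) 1 1 / β - (Pᵀ * N₁ * P) 2 2 / γ) / 2 =
        ((Pᵀ * N₂ * P) 1 1 / β - (Pᵀ * N₂ * P) 2 2 / γ) / 2 :=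
      congrArg (fun p : k × (k × k) => p.2.1) heq
    have e3 : (Pᵀ * N₁ * P) 1 2 = (Pᵀ * N₂ * P) 1 2 :=
      congrArg (fun p : k × (k × k) => p.2.2) heq
    have f0 : (Pᵀ * N₁ * P) 0 0 = (Pᵀ * N₂ * P) 0 0 := (div_left_inj' he).1 e1
    have e4 : (Pᵀ * N₁ * P) 1 1 / β - (Pᵀ * N₁ * P) 2 2 / γ =
        (Pᵀ * N₂ * P) 1 1 / β - (Pᵀ * N₂ * P) 2 2 / γ := (div_left_inj' h2).1 e2
    have e5 : (Pᵀ * N₁ * P) 1 1 / β + (Pᵀ * N₁ * P) 2 2 / γ =
        (Pᵀ * N₂ * P) 1 1 / β + (Pᵀ * N₂ * P) 2 2 / γ := by rw [c₁, c₂, e1]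
    have e6 : (Pᵀ * N₁ * P) 1 1 / β = (Pᵀ * N₂ * P) 1 1 / β := by
      apply mul_left_cancel₀ h2
      linear_combination e4 + e5
    have e7 : (Pᵀ * N₁ * P) 2 2 / γ = (Pᵀ * N₂ * P) 2 2 / γ := by
      apply mul_left_cancel₀ h2
      linear_combination e5 - e4
    have f1 : (Pᵀ * N₁ * P) 1 1 = (Pᵀ * N₂ * P) 1 1 := (div_left_inj' hβ).1 e6
    have f2 : (Pᵀ * N₁ * P) 2 2 = (Pᵀ * N₂ * P) 2 2 := (div_left_inj' hγ).1 e7
    have hmat : Pᵀ * N₁ * P = Pᵀ * N₂ * P := by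
      have g10 := (s₁.apply 0 1).trans (a₁.trans (a₂.symm.trans (s₂.apply 0 1).symm))
      have g20 := (s₁.apply 0 2).trans (b₁.trans (b₂.symm.trans (s₂.apply 0 2).symm))
      have g21 := (s₁.apply 1 2).trans (e3.trans (s₂.apply 1 2).symm)
      ext i j
      fin_cases i <;> fin_cases j
      · exact f0
      · exact a₁.trans a₂.symm
      · exact b₁.trans b₂.symm
      · exact g10
      · exact f1
      · exact e3
      · exact g20
      · exact g21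
      · exact f2
    have hrec : ∀ N : Matrix (Fin 3) (Fin 3) k, N = Pᵀ⁻¹ * (Pᵀ * N * P) * P⁻¹ := by
      intro N
      rw [Matrix.mul_assoc, Matrix.mul_assoc Pᵀ N P, Matrix.mul_assoc Pᵀ (N * P),
        Matrix.mul_assoc N P, Matrix.mul_nonsing_inv P hPu, Matrix.mul_one, ← Matrix.mul_assoc,
        Matrix.nonsing_inv_mul _ hPtu, Matrix.one_mul]
    rw [hrec N₁, hrec N₂, hmat]
  have hle := Set.ncard_le_ncard_of_injOn (t := ((Finset.univ.filter (fun p : k × (k × k) =>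
      ¬ IsSquare (4 * p.2.1 ^ 2 + 4 / (β * γ) * p.2.2 ^ 2) ∧
      IsSquare (α * (9 * p.1 ^ 2 - (4 * p.2.1 ^ 2 + 4 / (β * γ) * p.2.2 ^ 2)))) :
      Finset (k × (k × k))) : Set (k × (k × k)))) _ (fun N hN => ?_) hinj
      (Finset.finite_toSet _)
  · rw [Set.ncard_coe_finset] at hle
    exact (Nat.mul_le_mul_left 4 hle).trans (Fe_count h6 he hβ hγ)
  · obtain ⟨-, -, -, -, k1, k2⟩ := Fe_key h2 he hβ hγ hαe hcol hdiag hN.1 hN.2
    exact Finset.mem_coe.2 (Finset.mem_filter.2 ⟨Finset.mem_univ _, k1, k2⟩)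

end H54PP
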